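import Pool.Agent.Helper5.SX.Model

/-!
# Addresses: injectivity and lengths
-/

namespace Pool.Agent.Helper5.SX

private lemma penc_eq (x w : Str) :
    penc x w = x.reverse.flatMap (fun b => [true, b]) ++ w := by
  induction x generalizing w with
  | nil => simp [penc]
  | cons b x ih =>
    rw [penc, ih, List.reverse_cons, List.flatMap_append, List.append_assoc]
    simp

private lemma flat_inj (z z' y y' : Str)
    (h : z.flatMap (fun b => [true, b]) ++ false :: y
      = z'.flatMap (fun b => [true, b]) ++ false :: y') : z = z' ∧ y = y' := by
  induction z generalizing z' with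
  | nil =>
    cases z' with
    | nil => simpa using h
    | cons c z' => simp at h
  | cons b z ih =>
    cases z' with
    | nil => simp at h
    | cons c z' =>
      simp only [List.flatMap_cons, List.cons_append, List.nil_append, List.cons.injEq,
        true_and] at h
      obtain ⟨h1, h2⟩ := ih z' h.2
      exact ⟨by rw [h.1, h1], h2⟩

private lemma penc_inj {x x' y y' : Str} (h : penc x (false :: y) = penc x' (false :: y')) :
    x = x' ∧ y = y' := by
  rw [penc_eq, penc_eq] at h
  obtain ⟨h1, h2⟩ := flat_inj _ _ _ _ h
  exact ⟨List.reverse_injective h1, h2⟩

private lemma rep_inj (a b : ℕ) (u v : Str)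
    (h : List.replicate a true ++ false :: u = List.replicate b true ++ false :: v) :
    a = b ∧ u = v := by
  induction a generalizing b with
  | zero =>
    cases b with
    | zero => simpa using h
    | succ b => simp [List.replicate_succ] at h
  | succ a ih =>
    cases b with
    | zero => simp [List.replicate_succ] at h
    | succ b =>
      simp only [List.replicate_succ, List.cons_append, List.cons.injEq, true_and] at h
      obtain ⟨h1, h2⟩ := ih b h
      exact ⟨by rw [h1], h2⟩

private lemma penc_length (x w : Str) : (penc x w).length = 2 * x.length + w.length := by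
  induction x generalizing w with
  | nil => simp [penc]
  | cons b x ih =>
    rw [penc, ih]
    simp only [List.length_cons]
    ring

/-- The pairing of strings is injective. Proof: `penc x w = (x.reverse.flatMap (fun b => [true, b])) ++ w`. -/
theorem tstr_inj {x y x' y' : Str} (h : tstr x y = tstr x' y') : x = x' ∧ y = y' := by
  unfold tstr at h
  exact penc_inj (List.cons.inj h).2

theorem cstr_inj {i i' : ℕ} {x x' : Str} (h : cstr i x = cstr i' x') : i = i' ∧ x = x' := by
  unfold cstr at h
  obtain ⟨h1, h2⟩ := rep_inj _ _ _ _ h
  exact ⟨Nat.succ_injective h1, (penc_inj h2).1⟩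

theorem tstr_ne_cstr (x y : Str) (i : ℕ) (x' : Str) : tstr x y ≠ cstr i x' := by
  intro h
  unfold tstr cstr at h
  simp [List.replicate_succ] at h

theorem tstr_length (x y : Str) : (tstr x y).length = 2 * x.length + y.length + 2 := by
  unfold tstr
  rw [List.length_cons, penc_length, List.length_cons]
  ring

theorem cstr_length (i : ℕ) (x : Str) :
    (cstr i x).length = 2 ^ ((x.length + 2) ^ (2 * (i + 1))) + 2 * x.length + i + 3 := by
  unfold cstr
  rw [List.length_append, List.length_replicate, List.length_cons, penc_length, List.length_cons,
    List.length_replicate]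
  ring

end Pool.Agent.Helper5.SX
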