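import Pool.Agent.Helper5.SX.Num

/-!
# Further numerical facts
-/

namespace Pool.Agent.Helper5.SX

theorem exists_threshold_c (k : ℕ) : ∃ N, ∀ n ≥ N,
    2 ^ n * 2 ^ (n ^ (2 ^ (k + 1))) + (2 ^ n + 1) * 2 ^ (n ^ k + k) < 2 ^ (2 ^ n) := by
  obtain ⟨N, hN⟩ := num_exp (2 ^ (k + 1))
  refine ⟨max N (k + 4), fun n hn => ?_⟩
  have h1 := hN n (le_trans (le_max_left _ _) hn)
  have h2 := num_aux k n (le_trans (le_max_right _ _) hn)
  generalize n ^ (2 ^ (k + 1)) = T at h1 h2 ⊢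
  have h4 : 2 ^ n * 2 ^ T ≤ 2 ^ (4 * T) := by
    rw [← pow_add]
    exact Nat.pow_le_pow_right (by omega) (by omega)
  have h5 : (2 ^ n + 1) * 2 ^ (n ^ k + k) ≤ 2 ^ (4 * T) := by
    have h6 : 1 ≤ 2 ^ n := Nat.one_le_pow _ _ (by omega)
    calc (2 ^ n + 1) * 2 ^ (n ^ k + k) ≤ 2 ^ (n + 1) * 2 ^ (n ^ k + k) :=
          Nat.mul_le_mul_right _ (by rw [pow_succ]; omega)
      _ = 2 ^ (n + 1 + (n ^ k + k)) := by rw [← pow_add]
      _ ≤ 2 ^ (4 * T) := Nat.pow_le_pow_right (by omega) (by omega)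
  calc 2 ^ n * 2 ^ T + (2 ^ n + 1) * 2 ^ (n ^ k + k) ≤ 2 ^ (4 * T) + 2 ^ (4 * T) := by omega
    _ = 2 ^ (4 * T + 1) := by rw [pow_succ]; ring
    _ < 2 ^ (2 ^ n) := Nat.pow_lt_pow_right (by omega) h1

theorem exists_exponent' (k J : ℕ) {h : ℕ → ℕ} (hh : Monotone h) (hh' : ∀ n, n ≤ h n) :
    ∃ K, ∀ n ≥ 2,
    ((n ^ (2 ^ (k + 1))) ^ 2 * (h ((n ^ (2 ^ (k + 1))) ^ J + J) ^ J + 1) + 1) ^ (k + 1) * 2 ≤
      h (n ^ K + K) ^ K := by
  set e := 2 ^ (k + 1) with he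
  set c := (2 * e + J + 2) * (k + 1) + 1 with hc
  set K := c + e * J + J with hK
  refine ⟨K, fun n hn => ?_⟩
  set b := h (n ^ K + K) with hb
  have h1 : n ^ K + K ≤ b := hh' _
  have hK1 : 1 ≤ K := by omega
  have h2 : n ≤ b := by
    have : n ^ 1 ≤ n ^ K := Nat.pow_le_pow_right (by omega) hK1
    rw [pow_one] at this
    omega
  have h3 : h ((n ^ e) ^ J + J) ≤ b := by
    refine hh ?_
    rw [← pow_mul]
    have : n ^ (e * J) ≤ n ^ K := Nat.pow_le_pow_right (by omega) (by omega)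
    omega
  have h4 : h ((n ^ e) ^ J + J) ^ J ≤ b ^ J := Nat.pow_le_pow_left h3 J
  have h5 : (n ^ e) ^ 2 ≤ b ^ (2 * e) := by
    rw [← pow_mul, mul_comm e 2]
    exact Nat.pow_le_pow_left h2 _
  have hbJ : 1 ≤ b ^ J := Nat.one_le_pow _ _ (by omega)
  have hbe : 1 ≤ b ^ (2 * e + J) := Nat.one_le_pow _ _ (by omega)
  have h6 : (n ^ e) ^ 2 * (h ((n ^ e) ^ J + J) ^ J + 1) + 1 ≤ b ^ (2 * e + J + 2) := by
    calc (n ^ e) ^ 2 * (h ((n ^ e) ^ J + J) ^ J + 1) + 1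
        ≤ b ^ (2 * e) * (b ^ J + b ^ J) + b ^ (2 * e + J) := by
          have := Nat.mul_le_mul h5 (Nat.add_le_add h4 hbJ)
          omega
      _ = b ^ (2 * e + J) * 3 := by rw [pow_add]; ring
      _ ≤ b ^ (2 * e + J) * b ^ 2 := by
          refine Nat.mul_le_mul_left _ ?_
          nlinarith
      _ = b ^ (2 * e + J + 2) := by rw [← pow_add]
  calc ((n ^ e) ^ 2 * (h ((n ^ e) ^ J + J) ^ J + 1) + 1) ^ (k + 1) * 2
      ≤ (b ^ (2 * e + J + 2)) ^ (k + 1) * b :=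
        Nat.mul_le_mul (Nat.pow_le_pow_left h6 _) (by omega)
    _ = b ^ c := by rw [← pow_mul, hc, pow_succ b ((2 * e + J + 2) * (k + 1))]
    _ ≤ b ^ K := Nat.pow_le_pow_right (by omega) (by omega)

theorem exists_short (l : ℕ) : ∃ S : Finset Str, (∀ a : Str, a ∈ S ↔ a.length ≤ l) ∧
    S.card ≤ 2 * 2 ^ l := by
  classical
  refine ⟨(Finset.range (l + 1)).biUnion fun j => (finite_len j).toFinset, fun a => ?_, ?_⟩
  · rw [Finset.mem_biUnion]
    constructor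
    · rintro ⟨j, hj, ha⟩
      rw [Set.Finite.mem_toFinset] at ha
      rw [Finset.mem_range] at hj
      have ha' : a.length = j := ha
      omega
    · intro h
      exact ⟨a.length, Finset.mem_range.2 (by omega), (Set.Finite.mem_toFinset _).2 rfl⟩
  · refine Finset.card_biUnion_le.trans ?_
    calc ∑ j ∈ Finset.range (l + 1), (finite_len j).toFinset.card
        = ∑ j ∈ Finset.range (l + 1), 2 ^ j := Finset.sum_congr rfl fun j _ => card_len j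
      _ ≤ 2 ^ (l + 1) := by
          rw [Nat.geomSum_eq (le_refl 2)]
          simp
      _ = 2 * 2 ^ l := by rw [pow_succ]; ring

end Pool.Agent.Helper5.SX
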