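import Pool.Agent.Helper5.SX.Model

/-!
# Use principle and enumeration of the programs
-/

namespace Pool.Agent.Helper5.SX

/-- Use principle for `Run`: lengths of the stacks, and the finite set of the strings asked. -/
theorem run_use {O : Set Str} {c : Cmd} {s s' : Store} {t : ℕ} (h : Run O c s t s') :
    ∀ L : ℕ, (∀ r, (s r).length ≤ L) → (∀ r, (s' r).length ≤ L + t) ∧
      ∃ Q : Finset Str, Q.card ≤ t ∧ (∀ q ∈ Q, q.length ≤ L + t) ∧
        ∀ O' : Set Str, (∀ q ∈ Q, (q ∈ O' ↔ q ∈ O)) → Run O' c s t s' := by
  classical
  induction h with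
  | skip s =>
    intro L hL
    refine ⟨fun r => (hL r).trans (Nat.le_add_right _ _), ∅, by simp, by simp, ?_⟩
    intro O' _
    exact Run.skip s
  | push r b s =>
    intro L hL
    refine ⟨fun r' => ?_, ∅, by simp, by simp, ?_⟩
    · by_cases hr : r' = r
      · subst hr
        have := hL r'
        simp only [Function.update_self, List.length_cons]
        omega
      · have := hL r'
        rw [Function.update_of_ne hr]
        omega
    · intro O' _
      exact Run.push r b s
  | seq _ _ ih1 ih2 =>
    intro L hL
    obtain ⟨hl1, Q1, hc1, hq1, hr1⟩ := ih1 L hL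
    obtain ⟨hl2, Q2, hc2, hq2, hr2⟩ := ih2 _ hl1
    refine ⟨fun r => by have := hl2 r; omega, Q1 ∪ Q2, ?_, ?_, ?_⟩
    · exact (Finset.card_union_le _ _).trans (Nat.add_le_add hc1 hc2)
    · intro q hq
      rcases Finset.mem_union.mp hq with hq | hq
      · have := hq1 q hq; omega
      · have := hq2 q hq; omega
    · intro O' hO'
      exact Run.seq (hr1 O' fun q hq => hO' q (Finset.mem_union_left _ hq))
        (hr2 O' fun q hq => hO' q (Finset.mem_union_right _ hq))
  | pop_nil hs _ ih =>
    intro L hL
    obtain ⟨hl, Q, hc, hq, hr⟩ := ih L hL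
    exact ⟨fun r => by have := hl r; omega, Q, by omega,
      fun q h => by have := hq q h; omega, fun O' hO' => Run.pop_nil hs (hr O' hO')⟩
  | @pop_false r c0 c1 c2 s s' t w hs _ ih =>
    intro L hL
    have hL' : ∀ r', (Function.update s r w r').length ≤ L := by
      intro r'
      by_cases hr : r' = r
      · subst hr
        have := hL r'
        rw [hs] at this
        simp only [List.length_cons] at this
        simp only [Function.update_self]
        omega
      · rw [Function.update_of_ne hr]
        exact hL r'
    obtain ⟨hl, Q, hc, hq, hr⟩ := ih L hL'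
    exact ⟨fun r => by have := hl r; omega, Q, by omega,
      fun q h => by have := hq q h; omega, fun O' hO' => Run.pop_false hs (hr O' hO')⟩
  | @pop_true r c0 c1 c2 s s' t w hs _ ih =>
    intro L hL
    have hL' : ∀ r', (Function.update s r w r').length ≤ L := by
      intro r'
      by_cases hr : r' = r
      · subst hr
        have := hL r'
        rw [hs] at this
        simp only [List.length_cons] at this
        simp only [Function.update_self]
        omega
      · rw [Function.update_of_ne hr]
        exact hL r'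
    obtain ⟨hl, Q, hc, hq, hr⟩ := ih L hL'
    exact ⟨fun r => by have := hl r; omega, Q, by omega,
      fun q h => by have := hq q h; omega, fun O' hO' => Run.pop_true hs (hr O' hO')⟩
  | loop_nil hs =>
    intro L hL
    refine ⟨fun r => (hL r).trans (Nat.le_add_right _ _), ∅, by simp, by simp, ?_⟩
    intro O' _
    exact Run.loop_nil hs
  | loop_cons hs _ _ ih1 ih2 =>
    intro L hL
    obtain ⟨hl1, Q1, hc1, hq1, hr1⟩ := ih1 L hL
    obtain ⟨hl2, Q2, hc2, hq2, hr2⟩ := ih2 _ hl1
    refine ⟨fun r => by have := hl2 r; omega, Q1 ∪ Q2, ?_, ?_, ?_⟩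
    · have := Finset.card_union_le Q1 Q2
      omega
    · intro q hq
      rcases Finset.mem_union.mp hq with hq | hq
      · have := hq1 q hq; omega
      · have := hq2 q hq; omega
    · intro O' hO'
      exact Run.loop_cons hs (hr1 O' fun q hq => hO' q (Finset.mem_union_left _ hq))
        (hr2 O' fun q hq => hO' q (Finset.mem_union_right _ hq))
  | @query_yes r c d s s' t hs _ ih =>
    intro L hL
    obtain ⟨hl, Q, hc, hq, hr⟩ := ih L hL
    refine ⟨fun r => by have := hl r; omega, insert (s r) Q, ?_, ?_, ?_⟩
    · have := Finset.card_insert_le (s r) Q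
      omega
    · intro q h
      rcases Finset.mem_insert.mp h with h | h
      · subst h
        have := hL r
        omega
      · have := hq q h; omega
    · intro O' hO'
      exact Run.query_yes ((hO' (s r) (Finset.mem_insert_self _ _)).mpr hs)
        (hr O' fun q hq => hO' q (Finset.mem_insert_of_mem hq))
  | @query_no r c d s s' t hs _ ih =>
    intro L hL
    obtain ⟨hl, Q, hc, hq, hr⟩ := ih L hL
    refine ⟨fun r => by have := hl r; omega, insert (s r) Q, ?_, ?_, ?_⟩
    · have := Finset.card_insert_le (s r) Q
      omega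
    · intro q h
      rcases Finset.mem_insert.mp h with h | h
      · subst h
        have := hL r
        omega
      · have := hq q h; omega
    · intro O' hO'
      exact Run.query_no (fun h => hs ((hO' (s r) (Finset.mem_insert_self _ _)).mp h))
        (hr O' fun q hq => hO' q (Finset.mem_insert_of_mem hq))
  | choose_left _ ih =>
    intro L hL
    obtain ⟨hl, Q, hc, hq, hr⟩ := ih L hL
    exact ⟨fun r => by have := hl r; omega, Q, by omega,
      fun q h => by have := hq q h; omega, fun O' hO' => Run.choose_left (hr O' hO')⟩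
  | choose_right _ ih =>
    intro L hL
    obtain ⟨hl, Q, hc, hq, hr⟩ := ih L hL
    exact ⟨fun r => by have := hl r; omega, Q, by omega,
      fun q h => by have := hq q h; omega, fun O' hO' => Run.choose_right (hr O' hO')⟩

/-- Use principle: an accepting run with at most `T` steps asks at most `T` strings, all of
length at most `|x| + |a| + T`.

Proof: first the same for `Run` by induction: if `Run O c s t s'` and all stacks of `s` have
length at most `L`, then all stacks of `s'` have length at most `L + t` and there is a finite set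
`Q` of at most `t` strings of length at most `L + t` such that `Run O' c s t s'` for each `O'`
that agrees with `O` on `Q`. -/
theorem acc_use {O : Set Str} {c : Cmd} {x a : Str} {T : ℕ} (h : Acc O c x a T) :
    ∃ Q : Finset Str, Q.card ≤ T ∧ (∀ q ∈ Q, q.length ≤ x.length + a.length + T) ∧
      ∀ O' : Set Str, (∀ q ∈ Q, (q ∈ O' ↔ q ∈ O)) → Acc O' c x a T := by
  obtain ⟨t, ht, s', hr, hs'⟩ := h
  have hL : ∀ r, (start x a r).length ≤ x.length + a.length := by
    intro r
    unfold start
    split_ifs
    · omega
    · omega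
    · simp
  obtain ⟨_, Q, hc, hq, hO⟩ := run_use hr _ hL
  exact ⟨Q, hc.trans ht, fun q h => (hq q h).trans (by omega),
    fun O' hO' => ⟨t, ht, s', hO O' hO', hs'⟩⟩

/-- A number for each program. -/
private def cmdNum : Cmd → ℕ
  | Cmd.skip => Nat.pair 0 0
  | Cmd.push r b => Nat.pair 1 (Nat.pair r (if b then 1 else 0))
  | Cmd.seq c d => Nat.pair 2 (Nat.pair (cmdNum c) (cmdNum d))
  | Cmd.pop r a c d => Nat.pair 3 (Nat.pair r (Nat.pair (cmdNum a) (Nat.pair (cmdNum c) (cmdNum d))))
  | Cmd.loop r c => Nat.pair 4 (Nat.pair r (cmdNum c))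
  | Cmd.query r c d => Nat.pair 5 (Nat.pair r (Nat.pair (cmdNum c) (cmdNum d)))
  | Cmd.choose c d => Nat.pair 6 (Nat.pair (cmdNum c) (cmdNum d))

private theorem cmdNum_inj : ∀ c d : Cmd, cmdNum c = cmdNum d → c = d := by
  intro c
  induction c with
  | skip => intro d h; cases d <;> simp [cmdNum, Nat.pair_eq_pair] at h ⊢
  | push r b =>
    intro d h
    cases d <;> simp [cmdNum, Nat.pair_eq_pair] at h ⊢
    rename_i r' b'
    refine ⟨h.1, ?_⟩
    have h2 := h.2
    cases b <;> cases b' <;> simp_all
  | seq a b iha ihb =>
    intro d h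
    cases d <;> simp [cmdNum, Nat.pair_eq_pair] at h ⊢
    exact ⟨iha _ h.1, ihb _ h.2⟩
  | pop r a b c iha ihb ihc =>
    intro d h
    cases d <;> simp [cmdNum, Nat.pair_eq_pair] at h ⊢
    exact ⟨h.1, iha _ h.2.1, ihb _ h.2.2.1, ihc _ h.2.2.2⟩
  | loop r a iha =>
    intro d h
    cases d <;> simp [cmdNum, Nat.pair_eq_pair] at h ⊢
    exact ⟨h.1, iha _ h.2⟩
  | query r a b iha ihb =>
    intro d h
    cases d <;> simp [cmdNum, Nat.pair_eq_pair] at h ⊢
    exact ⟨h.1, iha _ h.2.1, ihb _ h.2.2⟩
  | choose a b iha ihb =>
    intro d h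
    cases d <;> simp [cmdNum, Nat.pair_eq_pair] at h ⊢
    exact ⟨iha _ h.1, ihb _ h.2⟩

/-- The pairs (program, number) can be listed so that each occurs at arbitrarily late places
and the number is at most the place.

Proof: `Cmd` is countable (for example by an injection into `List ℕ`, or by an injection into
the natural numbers built with `Nat.pair`); use `Nat.unpair` for the listing,
`f i = (program with number i.unpair.1.unpair.1, i.unpair.1.unpair.2)`. -/
theorem exists_enum : ∃ f : ℕ → Cmd × ℕ, (∀ i, (f i).2 ≤ i) ∧
    ∀ (c : Cmd) (k N : ℕ), ∃ i, N ≤ i ∧ f i = (c, k) := by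
  have hinj : Function.Injective cmdNum := fun c d h => cmdNum_inj c d h
  have hc : Countable Cmd := hinj.countable
  have hne : Nonempty Cmd := ⟨Cmd.skip⟩
  obtain ⟨g, hg⟩ := exists_surjective_nat Cmd
  refine ⟨fun i => (g i.unpair.1.unpair.1, i.unpair.1.unpair.2), fun i => ?_, fun c k N => ?_⟩
  · exact (Nat.unpair_right_le _).trans (Nat.unpair_left_le _)
  · obtain ⟨a, ha⟩ := hg c
    refine ⟨Nat.pair (Nat.pair a k) N, Nat.right_le_pair _ _, ?_⟩
    simp only [Nat.unpair_pair, ha]

end Pool.Agent.Helper5.SX
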