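import Pool.Agent.Helper5.SX.Model

/-!
# Each coded set is in EXP relative to its oracle
-/

namespace Pool.Agent.Helper5.SX

private def Does (O : Set Str) (c : Cmd) (s s' : Store) (T : ℕ) : Prop :=
  ∃ t ≤ T, Run O c s t s'

private lemma does_mono {O : Set Str} {c : Cmd} {s s' : Store} {T U : ℕ} (h : Does O c s s' T)
    (hU : T ≤ U) : Does O c s s' U := by
  obtain ⟨t, h1, h2⟩ := h
  exact ⟨t, h1.trans hU, h2⟩

private lemma does_seq {O : Set Str} {c d : Cmd} {s s' s'' : Store} {T T' : ℕ}
    (h : Does O c s s' T) (h' : Does O d s' s'' T') : Does O (Cmd.seq c d) s s'' (T + T') := by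
  obtain ⟨t, h1, h2⟩ := h
  obtain ⟨t', h1', h2'⟩ := h'
  exact ⟨t + t', Nat.add_le_add h1 h1', Run.seq h2 h2'⟩

private lemma does_push (O : Set Str) (r : ℕ) (b : Bool) (s : Store) :
    Does O (Cmd.push r b) s (Function.update s r (b :: s r)) 1 := ⟨1, le_rfl, Run.push r b s⟩

private lemma loop_step {O : Set Str} {r : ℕ} {b : Bool} {w : Str} {c1 c2 : Cmd}
    {s s' s'' : Store} {T T' : ℕ} (hr : s r = b :: w)
    (h1 : Does O (cond b c2 c1) (Function.update s r w) s' T)
    (h2 : Does O (Cmd.loop r (Cmd.pop r Cmd.skip c1 c2)) s' s'' T') :
    Does O (Cmd.loop r (Cmd.pop r Cmd.skip c1 c2)) s s'' (T + T' + 2) := by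
  obtain ⟨t, h3, h4⟩ := h1
  obtain ⟨t', h5, h6⟩ := h2
  refine ⟨(t + 1) + t' + 1, by omega, ?_⟩
  refine Run.loop_cons (by rw [hr]; simp) ?_ h6
  cases b
  · exact Run.pop_false hr h4
  · exact Run.pop_true hr h4

/-- A sequence of pushes. -/
private def pu : List (ℕ × Bool) → Cmd
  | [] => Cmd.skip
  | a :: L => Cmd.seq (Cmd.push a.1 a.2) (pu L)

private def outp (q : ℕ) : List (ℕ × Bool) → Str → Str
  | [], w => w
  | a :: L, w => outp q L (if a.1 = q then a.2 :: w else w)

private lemma pu_run (O : Set Str) (L : List (ℕ × Bool)) : ∀ s : Store,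
    Run O (pu L) s (L.length + 1) (fun q => outp q L (s q)) := by
  induction L with
  | nil => intro s; exact Run.skip s
  | cons a L ih =>
    intro s
    have h := Run.seq (Run.push (O := O) a.1 a.2 s) (ih (Function.update s a.1 (a.2 :: s a.1)))
    have e : (fun q => outp q L (Function.update s a.1 (a.2 :: s a.1) q)) =
        fun q => outp q (a :: L) (s q) := by
      funext q
      simp only [outp]
      congr 1
      by_cases hq : a.1 = q
      · subst hq; simp
      · rw [Function.update_of_ne (Ne.symm hq), if_neg hq]
    rw [e] at h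
    have e2 : 1 + (L.length + 1) = (a :: L).length + 1 := by simp [List.length_cons]; omega
    rw [e2] at h
    exact h

private lemma outp_of_ne {q : ℕ} {L : List (ℕ × Bool)} (h : ∀ a ∈ L, a.1 ≠ q) (w : Str) :
    outp q L w = w := by
  induction L generalizing w with
  | nil => rfl
  | cons a L ih =>
    simp only [outp]
    rw [if_neg (h a (by simp))]
    exact ih (fun a ha => h a (by simp [ha])) w

private lemma loop_run (O : Set Str) (r : ℕ) (L : Bool → List (ℕ × Bool))
    (hL : ∀ b, ∀ a ∈ L b, a.1 ≠ r) (hlen : ∀ b, (L b).length ≤ 2) : ∀ (w : Str) (s : Store),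
    s r = w → Does O (Cmd.loop r (Cmd.pop r Cmd.skip (pu (L false)) (pu (L true)))) s
      (fun q => if q = r then [] else w.foldl (fun acc b => outp q (L b) acc) (s q))
      (5 * w.length + 1) := by
  intro w
  induction w with
  | nil =>
    intro s hs
    have e : (fun q => if q = r then [] else
        ([] : Str).foldl (fun acc b => outp q (L b) acc) (s q)) = s := by
      funext q
      by_cases hq : q = r
      · rw [if_pos hq, hq, hs]
      · rw [if_neg hq]; rfl
    rw [e]
    exact ⟨1, by simp, Run.loop_nil hs⟩
  | cons b w ih =>
    intro s hs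
    have h1 : Does O (cond b (pu (L true)) (pu (L false))) (Function.update s r w)
        (fun q => outp q (L b) (Function.update s r w q)) 3 := by
      refine ⟨(L b).length + 1, by have := hlen b; omega, ?_⟩
      cases b
      · exact pu_run O (L false) _
      · exact pu_run O (L true) _
    have h2 := ih (fun q => outp q (L b) (Function.update s r w q)) (by
      simp only [Function.update_self]
      exact outp_of_ne (hL b) w)
    refine does_mono (?_ : Does O _ s _ (3 + (5 * w.length + 1) + 2)) (by
      simp only [List.length_cons]; omega)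
    have h3 := loop_step hs h1 h2
    have e : (fun q => if q = r then [] else w.foldl (fun acc b => outp q (L b) acc)
        (outp q (L b) (Function.update s r w q))) =
        fun q => if q = r then [] else (b :: w).foldl (fun acc b => outp q (L b) acc) (s q) := by
      funext q
      by_cases hq : q = r
      · rw [if_pos hq, if_pos hq]
      · rw [if_neg hq, if_neg hq, Function.update_of_ne hq]; rfl
    rw [e] at h3
    exact h3

private lemma foldl_id (w u : Str) : w.foldl (fun acc _ => acc) u = u := by
  induction w generalizing u with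
  | nil => rfl
  | cons b w ih => exact ih u

private lemma foldl_one (w u : Str) :
    w.foldl (fun acc _ => true :: acc) u = List.replicate w.length true ++ u := by
  induction w generalizing u with
  | nil => rfl
  | cons b w ih =>
    rw [List.foldl_cons, ih, List.length_cons, List.replicate_succ']
    simp

private lemma foldl_two (w u : Str) :
    w.foldl (fun acc _ => true :: true :: acc) u = List.replicate (2 * w.length) true ++ u := by
  induction w generalizing u with
  | nil => rfl
  | cons b w ih =>
    rw [List.foldl_cons, ih, List.length_cons, show 2 * (w.length + 1) = 2 * w.length + 1 + 1 by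
      ring, List.replicate_succ', List.replicate_succ']
    simp

private lemma foldl_rev (w u : Str) :
    w.foldl (fun acc b => b :: acc) u = w.reverse ++ u := by
  induction w generalizing u with
  | nil => rfl
  | cons b w ih =>
    rw [List.foldl_cons, ih]
    simp

private lemma foldl_penc (w u : Str) :
    w.foldl (fun acc b => true :: b :: acc) u = penc w u := by
  induction w generalizing u with
  | nil => rfl
  | cons b w ih =>
    rw [List.foldl_cons, ih, penc]

/-- Doubling stack 3. -/
private def dbl : Cmd :=
  Cmd.seq (Cmd.loop 3 (Cmd.pop 3 Cmd.skip (pu [(4, true), (4, true)]) (pu [(4, true), (4, true)])))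
    (Cmd.loop 4 (Cmd.pop 4 Cmd.skip (pu [(3, true)]) (pu [(3, true)])))

private lemma dbl_does (O : Set Str) (s : Store) (m : ℕ) (h4 : s 4 = [])
    (h3 : s 3 = List.replicate m true) :
    Does O dbl s (Function.update s 3 (List.replicate (2 * m) true)) (15 * m + 2) := by
  have a1 := loop_run O 3 (fun _ => [(4, true), (4, true)]) (by simp) (by simp) _ s h3
  have e1 : (fun q => if q = 3 then [] else (List.replicate m true).foldl
      (fun acc b => outp q ((fun _ => [(4, true), (4, true)]) b) acc) (s q)) =
      Function.update (Function.update s 4 (List.replicate (2 * m) true)) 3 [] := by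
    funext q
    by_cases hq : q = 3
    · subst hq; simp
    · rw [if_neg hq, Function.update_of_ne hq]
      by_cases hq4 : q = 4
      · subst hq4
        simp only [outp, if_true, Function.update_self]
        rw [foldl_two, h4]; simp
      · rw [Function.update_of_ne hq4]
        have h : ∀ acc : Str, outp q [(4, true), (4, true)] acc = acc := fun acc =>
          outp_of_ne (by simp; omega) acc
        simp only [h]
        exact foldl_id _ _
  rw [e1] at a1
  have a2 := loop_run O 4 (fun _ => [(3, true)]) (by simp) (by simp) (List.replicate (2 * m) true)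
    (Function.update (Function.update s 4 (List.replicate (2 * m) true)) 3 []) (by
      rw [Function.update_of_ne (by decide)]; simp)
  have e2 : (fun q => if q = 4 then [] else (List.replicate (2 * m) true).foldl
      (fun acc b => outp q ((fun _ => [(3, true)]) b) acc)
      ((Function.update (Function.update s 4 (List.replicate (2 * m) true)) 3 []) q)) =
      Function.update s 3 (List.replicate (2 * m) true) := by
    funext q
    by_cases hq : q = 4
    · subst hq; simp [h4]
    · rw [if_neg hq]
      by_cases hq3 : q = 3
      · subst hq3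
        simp only [outp, if_true, Function.update_self]
        rw [foldl_one]; simp
      · rw [Function.update_of_ne hq3, Function.update_of_ne hq, Function.update_of_ne hq3]
        have h : ∀ acc : Str, outp q [(3, true)] acc = acc := fun acc =>
          outp_of_ne (by simp; omega) acc
        simp only [h]
        exact foldl_id _ _
  rw [e2] at a2
  refine does_mono (does_seq a1 a2) ?_
  simp only [List.length_replicate]
  omega

/-- Copying stack 5 (all `true`) to stack `6 + j`. -/
private def cpy (j : ℕ) : Cmd :=
  Cmd.seq (Cmd.loop 5 (Cmd.pop 5 Cmd.skip (pu [(4, true)]) (pu [(4, true)])))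
    (Cmd.loop 4 (Cmd.pop 4 Cmd.skip (pu [(5, true), (6 + j, true)])
      (pu [(5, true), (6 + j, true)])))

private lemma cpy_does (O : Set Str) (s : Store) (N j : ℕ) (h4 : s 4 = [])
    (h5 : s 5 = List.replicate N true) (hj : s (6 + j) = []) :
    Does O (cpy j) s (Function.update s (6 + j) (List.replicate N true)) (10 * N + 2) := by
  have a1 := loop_run O 5 (fun _ => [(4, true)]) (by simp) (by simp) _ s h5
  have e1 : (fun q => if q = 5 then [] else (List.replicate N true).foldl
      (fun acc b => outp q ((fun _ => [(4, true)]) b) acc) (s q)) =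
      Function.update (Function.update s 4 (List.replicate N true)) 5 [] := by
    funext q
    by_cases hq : q = 5
    · subst hq; simp
    · rw [if_neg hq, Function.update_of_ne hq]
      by_cases hq4 : q = 4
      · subst hq4
        simp only [outp, if_true, Function.update_self]
        rw [foldl_one, h4]; simp
      · rw [Function.update_of_ne hq4]
        have h : ∀ acc : Str, outp q [(4, true)] acc = acc := fun acc =>
          outp_of_ne (by simp; omega) acc
        simp only [h]
        exact foldl_id _ _
  rw [e1] at a1
  have a2 := loop_run O 4 (fun _ => [(5, true), (6 + j, true)]) (by simp; omega) (by simp)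
    (List.replicate N true)
    (Function.update (Function.update s 4 (List.replicate N true)) 5 []) (by
      rw [Function.update_of_ne (by decide)]; simp)
  have e2 : (fun q => if q = 4 then [] else (List.replicate N true).foldl
      (fun acc b => outp q ((fun _ => [(5, true), (6 + j, true)]) b) acc)
      ((Function.update (Function.update s 4 (List.replicate N true)) 5 []) q)) =
      Function.update s (6 + j) (List.replicate N true) := by
    funext q
    by_cases hq : q = 4
    · subst hq
      rw [if_pos rfl, Function.update_of_ne (by omega), h4]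
    · rw [if_neg hq]
      by_cases hq5 : q = 5
      · subst hq5
        have h : ∀ acc : Str, outp 5 [(5, true), (6 + j, true)] acc = true :: acc := fun acc => by
          simp only [outp, if_true]
          rw [if_neg (by omega)]
        simp only [h, Function.update_self]
        rw [foldl_one, Function.update_of_ne (by omega), h5]; simp
      · by_cases hqj : q = 6 + j
        · subst hqj
          have h : ∀ acc : Str, outp (6 + j) [(5, true), (6 + j, true)] acc = true :: acc :=
            fun acc => by
              simp only [outp, if_true]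
              rw [if_neg (by omega)]
          simp only [h, Function.update_self]
          rw [foldl_one, Function.update_of_ne (by omega), Function.update_of_ne (by omega), hj]
          simp
        · rw [Function.update_of_ne hq5, Function.update_of_ne hq, Function.update_of_ne hqj]
          have h : ∀ acc : Str, outp q [(5, true), (6 + j, true)] acc = acc := fun acc =>
            outp_of_ne (by simp; omega) acc
          simp only [h]
          exact foldl_id _ _
  rw [e2] at a2
  refine does_mono (does_seq a1 a2) ?_
  simp only [List.length_replicate]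
  omega

/-- `rep j` doubles stack 3 exactly `N ^ j` times, `N` the length of stack 5. -/
private def rep : ℕ → Cmd
  | 0 => dbl
  | j + 1 => Cmd.seq (cpy j) (Cmd.loop (6 + j) (Cmd.pop (6 + j) Cmd.skip (rep j) (rep j)))

private lemma rep_does (O : Set Str) (N E B : ℕ) (hB : 15 * 2 ^ E + 2 ≤ B) (hBN : N + 1 ≤ B) :
    ∀ (j a : ℕ) (s : Store), a + N ^ j ≤ E → s 4 = [] → s 5 = List.replicate N true →
      (∀ j' < j, s (6 + j') = []) → s 3 = List.replicate (2 ^ a) true →
      Does O (rep j) s (Function.update s 3 (List.replicate (2 ^ (a + N ^ j)) true))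
        (B * (N + 13) ^ j) := by
  intro j
  induction j with
  | zero =>
    intro a s ha h4 h5 _ h3
    have h := dbl_does O s (2 ^ a) h4 h3
    have e : 2 * 2 ^ a = 2 ^ (a + N ^ 0) := by rw [pow_zero, pow_succ]; ring
    rw [e] at h
    refine does_mono h ?_
    have : 2 ^ a ≤ 2 ^ E := Nat.pow_le_pow_right (by norm_num) (by omega)
    rw [pow_zero, mul_one]
    omega
  | succ j ih =>
    intro a s ha h4 h5 hj h3
    have key : ∀ (k a : ℕ) (s : Store), a + k * N ^ j ≤ E → s 4 = [] →
        s 5 = List.replicate N true → (∀ j' < j, s (6 + j') = []) →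
        s 3 = List.replicate (2 ^ a) true → s (6 + j) = List.replicate k true →
        Does O (Cmd.loop (6 + j) (Cmd.pop (6 + j) Cmd.skip (rep j) (rep j))) s
          (Function.update (Function.update s (6 + j) []) 3
            (List.replicate (2 ^ (a + k * N ^ j)) true)) (k * (B * (N + 13) ^ j + 2) + 1) := by
      intro k
      induction k with
      | zero =>
        intro a s ha h4 h5 hj h3 hk
        have e : Function.update (Function.update s (6 + j) []) 3
            (List.replicate (2 ^ (a + 0 * N ^ j)) true) = s := by
          rw [zero_mul, add_zero, ← h3]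
          funext q
          by_cases hq : q = 3
          · subst hq; simp
          · rw [Function.update_of_ne hq]
            by_cases hq2 : q = 6 + j
            · subst hq2; rw [Function.update_self, hk]; rfl
            · rw [Function.update_of_ne hq2]
        rw [e]
        exact ⟨1, by omega, Run.loop_nil (by rw [hk]; rfl)⟩
      | succ k ihk =>
        intro a s ha h4 h5 hj h3 hk
        have hk' : s (6 + j) = true :: List.replicate k true := by
          rw [hk, List.replicate_succ]
        have ha' : a + N ^ j + k * N ^ j ≤ E := by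
          have : a + (k + 1) * N ^ j = a + N ^ j + k * N ^ j := by ring
          omega
        have b1 := ih a (Function.update s (6 + j) (List.replicate k true))
          (by have := Nat.zero_le (k * N ^ j); omega)
          (by rw [Function.update_of_ne (by omega)]; exact h4)
          (by rw [Function.update_of_ne (by omega)]; exact h5)
          (by
            intro j' hj'
            rw [Function.update_of_ne (by omega)]; exact hj j' hj')
          (by rw [Function.update_of_ne (by omega)]; exact h3)
        have b2 := ihk (a + N ^ j) (Function.update (Function.update s (6 + j)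
          (List.replicate k true)) 3 (List.replicate (2 ^ (a + N ^ j)) true)) ha'
          (by rw [Function.update_of_ne (by omega), Function.update_of_ne (by omega)]; exact h4)
          (by rw [Function.update_of_ne (by omega), Function.update_of_ne (by omega)]; exact h5)
          (by
            intro j' hj'
            rw [Function.update_of_ne (by omega), Function.update_of_ne (by omega)]
            exact hj j' hj')
          (by rw [Function.update_self])
          (by rw [Function.update_of_ne (by omega), Function.update_self])
        have b3 := loop_step (c1 := rep j) (c2 := rep j) hk' (by simpa using b1) b2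
        have e : Function.update (Function.update (Function.update (Function.update s (6 + j)
            (List.replicate k true)) 3 (List.replicate (2 ^ (a + N ^ j)) true)) (6 + j) []) 3
            (List.replicate (2 ^ (a + N ^ j + k * N ^ j)) true) =
            Function.update (Function.update s (6 + j) []) 3
              (List.replicate (2 ^ (a + (k + 1) * N ^ j)) true) := by
          have e1 : a + N ^ j + k * N ^ j = a + (k + 1) * N ^ j := by ring
          rw [e1]
          funext q
          by_cases hq : q = 3
          · subst hq; simp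
          · rw [Function.update_of_ne hq, Function.update_of_ne hq]
            by_cases hq2 : q = 6 + j
            · subst hq2; rw [Function.update_self, Function.update_self]
            · rw [Function.update_of_ne hq2, Function.update_of_ne hq, Function.update_of_ne hq2,
                Function.update_of_ne hq2]
        rw [e] at b3
        refine does_mono b3 (le_of_eq ?_)
        ring
    have c1 := cpy_does O s N j h4 h5 (hj j (by omega))
    have c2 := key N a (Function.update s (6 + j) (List.replicate N true))
      (by rw [pow_succ, mul_comm] at ha; exact ha)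
      (by rw [Function.update_of_ne (by omega)]; exact h4)
      (by rw [Function.update_of_ne (by omega)]; exact h5)
      (by
        intro j' hj'
        rw [Function.update_of_ne (by omega)]; exact hj j' (by omega))
      (by rw [Function.update_of_ne (by omega)]; exact h3)
      (by rw [Function.update_self])
    have c3 := does_seq c1 c2
    have e : Function.update (Function.update (Function.update s (6 + j)
        (List.replicate N true)) (6 + j) []) 3 (List.replicate (2 ^ (a + N * N ^ j)) true) =
        Function.update s 3 (List.replicate (2 ^ (a + N ^ (j + 1))) true) := by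
      rw [show N * N ^ j = N ^ (j + 1) by rw [pow_succ]; ring]
      funext q
      by_cases hq : q = 3
      · subst hq; simp
      · rw [Function.update_of_ne hq, Function.update_of_ne hq]
        by_cases hq2 : q = 6 + j
        · subst hq2; rw [Function.update_self, hj j (by omega)]
        · rw [Function.update_of_ne hq2, Function.update_of_ne hq2]
    rw [e] at c3
    refine does_mono c3 ?_
    have h1 : B ≤ B * (N + 13) ^ j := Nat.le_mul_of_pos_right B (by positivity)
    rw [pow_succ]
    nlinarith [h1, hBN]

private lemma pu_det (L : List (ℕ × Bool)) : (pu L).Det := by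
  induction L with
  | nil => trivial
  | cons a L ih => exact ⟨trivial, ih⟩

private lemma rep_det (j : ℕ) : (rep j).Det := by
  induction j with
  | zero => exact ⟨⟨trivial, pu_det _, pu_det _⟩, ⟨trivial, pu_det _, pu_det _⟩⟩
  | succ j ih =>
    exact ⟨⟨⟨trivial, pu_det _, pu_det _⟩, ⟨trivial, pu_det _, pu_det _⟩⟩, trivial, ih, ih⟩

private def lp (r : ℕ) (L : Bool → List (ℕ × Bool)) : Cmd :=
  Cmd.loop r (Cmd.pop r Cmd.skip (pu (L false)) (pu (L true)))

private def prog (i : ℕ) : Cmd :=
  Cmd.seq (lp 0 (fun b => [(4, b)]))
    (Cmd.seq (lp 4 (fun b => [(0, b), (5, true)]))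
      (Cmd.seq (pu [(5, true), (5, true), (3, true)])
        (Cmd.seq (rep (2 * (i + 1)))
          (Cmd.seq (Cmd.push 3 false)
            (Cmd.seq (lp 0 (fun b => [(3, b), (3, true)]))
              (Cmd.seq (Cmd.push 3 false)
                (Cmd.seq (pu (List.replicate (i + 1) (3, true)))
                  (Cmd.query 3 (Cmd.push 2 true) Cmd.skip))))))))

private lemma lp_det (r : ℕ) (L : Bool → List (ℕ × Bool)) : (lp r L).Det :=
  ⟨trivial, pu_det _, pu_det _⟩

private lemma prog_det (i : ℕ) : (prog i).Det :=
  ⟨lp_det _ _, lp_det _ _, pu_det _, rep_det _, trivial, lp_det _ _, trivial, pu_det _,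
    trivial, trivial⟩

private lemma outp_rep (m : ℕ) (w : Str) :
    outp 3 (List.replicate m (3, true)) w = List.replicate m true ++ w := by
  induction m generalizing w with
  | zero => rfl
  | succ m ih =>
    rw [List.replicate_succ]
    simp only [outp, if_true]
    rw [ih, List.replicate_succ']
    simp

private lemma prog_does (O : Set Str) (i : ℕ) (x : Str) : ∃ s' : Store,
    Does O (prog i) (start x []) s' (15 * x.length + i + 20 +
      (15 * 2 ^ ((x.length + 2) ^ (2 * (i + 1))) + x.length + 5) *
        (x.length + 15) ^ (2 * (i + 1))) ∧ (s' 2 ≠ [] ↔ cstr i x ∈ O) := by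
  -- move stack 0 to stack 4
  have a1 := loop_run O 0 (fun b => [(4, b)]) (by simp) (by simp) x (start x []) (by simp [start])
  obtain ⟨s1, hs1⟩ : ∃ s1 : Store, s1 = (fun q => if q = 0 then [] else
    x.foldl (fun acc b => outp q ((fun b => [(4, b)]) b) acc) (start x [] q)) := ⟨_, rfl⟩
  rw [← hs1] at a1
  have s1v : ∀ q, q ≠ 4 → s1 q = [] := by
    intro q hq
    rw [hs1]
    by_cases h0 : q = 0
    · simp [h0]
    · simp only [h0, if_false]
      have h : ∀ (acc : Str) (b : Bool), outp q [(4, b)] acc = acc := fun acc b =>
        outp_of_ne (by simp; omega) acc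
      simp only [h]
      rw [foldl_id]
      simp only [start, h0, if_false]
      split_ifs <;> rfl
  have s14 : s1 4 = x.reverse := by
    rw [hs1]
    simp only [outp, if_true]
    rw [if_neg (by decide), foldl_rev]
    simp [start]
  -- back to stack 0, counting on stack 5
  have a2 := loop_run O 4 (fun b => [(0, b), (5, true)]) (by simp) (by simp) x.reverse s1 s14
  obtain ⟨s2, hs2⟩ : ∃ s2 : Store, s2 = (fun q => if q = 4 then [] else
    x.reverse.foldl (fun acc b => outp q ((fun b => [(0, b), (5, true)]) b) acc) (s1 q)) :=
    ⟨_, rfl⟩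
  rw [← hs2] at a2
  have s2v : ∀ q, q ≠ 0 → q ≠ 5 → s2 q = [] := by
    intro q h0 h5
    rw [hs2]
    by_cases h4 : q = 4
    · simp [h4]
    · simp only [h4, if_false]
      have h : ∀ (acc : Str) (b : Bool), outp q [(0, b), (5, true)] acc = acc := fun acc b =>
        outp_of_ne (by simp; omega) acc
      simp only [h]
      rw [foldl_id]
      exact s1v q h4
  have s20 : s2 0 = x := by
    rw [hs2]
    have h : ∀ (acc : Str) (b : Bool), outp 0 [(0, b), (5, true)] acc = b :: acc :=
      fun acc b => by simp [outp]
    simp only [h]
    rw [if_neg (by decide), foldl_rev, s1v 0 (by decide)]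
    simp
  have s25 : s2 5 = List.replicate x.length true := by
    rw [hs2]
    have h : ∀ (acc : Str) (b : Bool), outp 5 [(0, b), (5, true)] acc = true :: acc :=
      fun acc b => by simp [outp]
    simp only [h]
    rw [if_neg (by decide), foldl_one, s1v 5 (by decide)]
    simp
  -- two more on stack 5, one on stack 3
  have a3 : Does O (pu [(5, true), (5, true), (3, true)]) s2 _ 4 :=
    ⟨_, by simp, pu_run O [(5, true), (5, true), (3, true)] s2⟩
  obtain ⟨s3, hs3⟩ : ∃ s3 : Store,
    s3 = (fun q => outp q [(5, true), (5, true), (3, true)] (s2 q)) := ⟨_, rfl⟩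
  rw [← hs3] at a3
  have s3v : ∀ q, q ≠ 0 → q ≠ 5 → q ≠ 3 → s3 q = [] := by
    intro q h0 h5 h3
    rw [hs3]
    simp only
    rw [outp_of_ne (by simp; omega)]
    exact s2v q h0 h5
  have s30 : s3 0 = x := by
    rw [hs3]
    simp only
    rw [outp_of_ne (by simp)]
    exact s20
  have s35 : s3 5 = List.replicate (x.length + 2) true := by
    rw [hs3]
    simp [outp, s25, List.replicate_succ]
  have s33 : s3 3 = List.replicate (2 ^ 0) true := by
    rw [hs3]
    simp [outp, s2v 3 (by decide) (by decide)]
  -- doubling
  have a4 := rep_does O (x.length + 2) ((x.length + 2) ^ (2 * (i + 1)))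
    (15 * 2 ^ ((x.length + 2) ^ (2 * (i + 1))) + x.length + 5) (by omega) (by omega)
    (2 * (i + 1)) 0 s3 (by rw [zero_add]) (s3v 4 (by decide) (by decide) (by decide)) s35
    (fun j' _ => s3v _ (by omega) (by omega) (by omega)) s33
  rw [zero_add] at a4
  obtain ⟨s4, hs4⟩ : ∃ s4 : Store, s4 = Function.update s3 3
    (List.replicate (2 ^ ((x.length + 2) ^ (2 * (i + 1)))) true) := ⟨_, rfl⟩
  rw [← hs4] at a4
  have s40 : s4 0 = x := by rw [hs4, Function.update_of_ne (by decide)]; exact s30
  have s42 : s4 2 = [] := by
    rw [hs4, Function.update_of_ne (by decide)]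
    exact s3v 2 (by decide) (by decide) (by decide)
  have s43 : s4 3 = List.replicate (2 ^ ((x.length + 2) ^ (2 * (i + 1)))) true := by
    rw [hs4, Function.update_self]
  -- separator
  have a5 := does_push O 3 false s4
  obtain ⟨s5, hs5⟩ : ∃ s5 : Store, s5 = Function.update s4 3 (false :: s4 3) := ⟨_, rfl⟩
  rw [← hs5] at a5
  have s50 : s5 0 = x := by rw [hs5, Function.update_of_ne (by decide)]; exact s40
  have s52 : s5 2 = [] := by rw [hs5, Function.update_of_ne (by decide)]; exact s42
  have s53 : s5 3 = false :: List.replicate (2 ^ ((x.length + 2) ^ (2 * (i + 1)))) true := by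
    rw [hs5, Function.update_self, s43]
  -- code of x
  have a6 := loop_run O 0 (fun b => [(3, b), (3, true)]) (by simp) (by simp) x s5 s50
  obtain ⟨s6, hs6⟩ : ∃ s6 : Store, s6 = (fun q => if q = 0 then [] else
    x.foldl (fun acc b => outp q ((fun b => [(3, b), (3, true)]) b) acc) (s5 q)) := ⟨_, rfl⟩
  rw [← hs6] at a6
  have s62 : s6 2 = [] := by
    rw [hs6]
    have h : ∀ (acc : Str) (b : Bool), outp 2 [(3, b), (3, true)] acc = acc := fun acc b =>
        outp_of_ne (by simp) acc
    simp only [h]
    rw [if_neg (by decide), foldl_id]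
    exact s52
  have s63 : s6 3 = penc x (false ::
      List.replicate (2 ^ ((x.length + 2) ^ (2 * (i + 1)))) true) := by
    rw [hs6]
    have h : ∀ (acc : Str) (b : Bool), outp 3 [(3, b), (3, true)] acc = true :: b :: acc :=
      fun acc b => by simp [outp]
    simp only [h]
    rw [if_neg (by decide), foldl_penc, s53]
  -- separator and index
  have a7 := does_push O 3 false s6
  obtain ⟨s7, hs7⟩ : ∃ s7 : Store, s7 = Function.update s6 3 (false :: s6 3) := ⟨_, rfl⟩
  rw [← hs7] at a7
  have s72 : s7 2 = [] := by rw [hs7, Function.update_of_ne (by decide)]; exact s62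
  have s73 : s7 3 = false :: penc x (false ::
      List.replicate (2 ^ ((x.length + 2) ^ (2 * (i + 1)))) true) := by
    rw [hs7, Function.update_self, s63]
  have a8 : Does O (pu (List.replicate (i + 1) (3, true))) s7 _ (i + 2) :=
    ⟨_, by simp, pu_run O (List.replicate (i + 1) (3, true)) s7⟩
  obtain ⟨s8, hs8⟩ : ∃ s8 : Store,
    s8 = (fun q => outp q (List.replicate (i + 1) (3, true)) (s7 q)) := ⟨_, rfl⟩
  rw [← hs8] at a8
  have s82 : s8 2 = [] := by
    rw [hs8]
    simp only
    rw [outp_of_ne (by
      intro a ha
      rw [List.eq_of_mem_replicate ha]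
      decide)]
    exact s72
  have s83 : s8 3 = cstr i x := by
    rw [hs8]
    simp only
    rw [outp_rep, s73]
    rfl
  -- the question
  obtain ⟨s9, a9, hs9⟩ : ∃ s9 : Store, Does O (Cmd.query 3 (Cmd.push 2 true) Cmd.skip) s8 s9 2 ∧
      (s9 2 ≠ [] ↔ cstr i x ∈ O) := by
    by_cases h : cstr i x ∈ O
    · refine ⟨_, ⟨2, le_rfl, Run.query_yes (by rw [s83]; exact h) (Run.push 2 true s8)⟩, ?_⟩
      simp [h]
    · refine ⟨_, ⟨2, le_rfl, Run.query_no (by rw [s83]; exact h) (Run.skip s8)⟩, ?_⟩
      simp [h, s82]
  refine ⟨s9, ?_, hs9⟩
  have := does_seq a1 (does_seq a2 (does_seq a3 (does_seq a4 (does_seq a5 (does_seq a6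
    (does_seq a7 (does_seq a8 a9)))))))
  refine does_mono this ?_
  rw [List.length_reverse]
  rw [show x.length + 2 + 13 = x.length + 15 by ring]
  omega

private lemma poly_le (K C : ℕ) : ∃ k : ℕ, ∀ n : ℕ, C * (n + 2) ^ K ≤ n ^ k + k := by
  refine ⟨C * 3 ^ K + 2 * K + C, fun n => ?_⟩
  rcases Nat.lt_or_ge n 2 with hn | hn
  · have h1 : (n + 2) ^ K ≤ 3 ^ K := Nat.pow_le_pow_left (by omega) K
    have h2 : C * (n + 2) ^ K ≤ C * 3 ^ K := Nat.mul_le_mul_left C h1
    omega
  · have h1 : (n + 2) ^ K ≤ (n ^ 2) ^ K := Nat.pow_le_pow_left (by nlinarith) K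
    have h2 : C ≤ n ^ C := (Nat.lt_pow_self (by omega)).le
    have h3 : C * (n + 2) ^ K ≤ n ^ C * (n ^ 2) ^ K := Nat.mul_le_mul h2 h1
    have h4 : n ^ C * (n ^ 2) ^ K = n ^ (2 * K + C) := by
      rw [← pow_mul, ← pow_add, add_comm]
    have h5 : n ^ (2 * K + C) ≤ n ^ (C * 3 ^ K + 2 * K + C) :=
      Nat.pow_le_pow_right (by omega) (by omega)
    omega

private lemma time_le (i n : ℕ) : 15 * n + i + 20 +
      (15 * 2 ^ ((n + 2) ^ (2 * (i + 1))) + n + 5) * (n + 15) ^ (2 * (i + 1)) ≤
      2 ^ ((40 * i + 80) * (n + 2) ^ (2 * (i + 1))) := by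
  obtain ⟨E, hE⟩ : ∃ E, E = (n + 2) ^ (2 * (i + 1)) := ⟨_, rfl⟩
  rw [← hE]
  have hEn : n + 2 ≤ E := by
    rw [hE]
    exact Nat.le_self_pow (by omega) _
  have h1 : 15 * 2 ^ E + n + 5 ≤ 2 ^ (E + 5) := by
    have : n + 5 ≤ 8 * 2 ^ E := by
      have := (Nat.lt_two_pow_self (n := E)).le
      omega
    rw [pow_add]
    omega
  have h2 : (n + 15) ^ (2 * (i + 1)) ≤ 2 ^ ((E + 13) * (2 * (i + 1))) := by
    have e : 2 ^ ((E + 13) * (2 * (i + 1))) = (2 ^ (E + 13)) ^ (2 * (i + 1)) := pow_mul _ _ _
    rw [e]
    refine Nat.pow_le_pow_left ?_ _
    have := (Nat.lt_two_pow_self (n := E + 13)).le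
    omega
  have h3 : 15 * n + i + 20 ≤ 2 ^ (E + i + 5) := by
    have h4 : E + i + 1 ≤ 2 ^ (E + i) := Nat.lt_two_pow_self
    rw [pow_add]
    omega
  have h4 : (15 * 2 ^ E + n + 5) * (n + 15) ^ (2 * (i + 1)) ≤
      2 ^ (E + 5 + (E + 13) * (2 * (i + 1))) := by
    rw [pow_add 2 (E + 5)]
    exact Nat.mul_le_mul h1 h2
  have h5 : E + i + 5 ≤ E + 5 + (E + 13) * (2 * (i + 1)) := by nlinarith
  have h6 : 2 ^ (E + i + 5) ≤ 2 ^ (E + 5 + (E + 13) * (2 * (i + 1))) :=
    Nat.pow_le_pow_right (by norm_num) h5
  have h7 : E + 5 + (E + 13) * (2 * (i + 1)) + 1 ≤ (40 * i + 80) * E := by nlinarith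
  have h8 : 2 ^ (E + 5 + (E + 13) * (2 * (i + 1)) + 1) ≤ 2 ^ ((40 * i + 80) * E) :=
    Nat.pow_le_pow_right (by norm_num) h7
  rw [pow_succ] at h8
  omega

/-- Deterministic program: write `cstr i x` on stack 3 and query it.

Plan (work with `Does O c s s' T := ∃ t ≤ T, Run O c s t s'` and a composition lemma).
(1) Make on stack 5 a string of length `n + 2` (`n = |x|`), keeping `x` on stack 0: move stack 0
to stack 4 bit by bit (this reverses), then move stack 4 back, pushing on both 0 and 5; two more
pushes on 5.
(2) Push `true` on stack 3. `rep 0 body = body`, `rep (j+1) body = copy stack 5 to stack 6+j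
(through stack 4); loop (6+j) (pop (6+j) (rep j body) (rep j body) (rep j body))`: this executes
`body` exactly `(n+2)^(j+1)` times. With `body = double stack 3` (`loop 3 (pop 3 skip skip
(seq (push 4 true) (push 4 true)))`, then move stack 4 to stack 3) and `j + 1 = 2 * (i+1)` this
leaves `2 ^ ((n+2)^(2*(i+1)))` times `true` on stack 3.
(3) Push `false` on stack 3; `loop 0 (pop 0 skip (seq (push 3 false) (push 3 true))
(seq (push 3 true) (push 3 true)))` makes `penc x (false :: pad)` (note
`penc (b :: x) w = penc x (true :: b :: w)`).
(4) Push `false`, then `i + 1` times `true` on stack 3. Now stack 3 holds `cstr i x`.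
(5) `query 3 (push 2 true) skip`.
Time: at most `C * (n+2)^(2*(i+1)) * 2 ^ ((n+2)^(2*(i+1)))` or so, which is at most
`2 ^ (n^k + k)` for suitable `k` (for all `K C` there is `k` with `C * (n+2)^K ≤ n^k + k` for
all `n`). -/
theorem codeSet_mem_EXP (O : Set Str) (i : ℕ) : codeSet O i ∈ EXP O := by
  obtain ⟨k, hk⟩ := poly_le (2 * (i + 1)) (40 * i + 80)
  refine ⟨prog i, prog_det i, k, fun x => ?_⟩
  obtain ⟨s', ⟨t, ht, hr⟩, hs⟩ := prog_does O i x
  refine ⟨t, ht.trans ((time_le i x.length).trans ?_), s', hr, ?_⟩
  · exact Nat.pow_le_pow_right (by norm_num) (hk x.length)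
  · rw [hs]; rfl

end Pool.Agent.Helper5.SX
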