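import Pool.Agent.Helper5.SX.Stage

/-!
# The global construction
-/

namespace Pool.Agent.Helper5.SX

open Classical

theorem global {A : ℕ → Str → Set Str → Prop} {cap : ℕ → ℕ → ℕ} (hA : Tame A)
    (n D M b : ℕ → ℕ) (X S : ℕ → Finset Str) (B : ℕ → Str → Str → Set Str → Prop)
    (hn : ∀ s, 1 ≤ n s) (hgap : ∀ s, (n s) ^ (2 ^ (D s)) ≤ n (s + 1))
    (hlt : ∀ s, n s < n (s + 1)) (hX : ∀ s, ∀ x ∈ X s, x.length = n s)
    (hB : ∀ s, ∀ a ∈ S s, ∀ x ∈ X s, UseBd (B s a x) (b s) (2 ^ ((n s) ^ (2 ^ (D s)))))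
    (hM : ∀ s, ∑ p ∈ Rl ((n s) ^ (2 ^ (D s))), cap p.1 p.2 ≤ M s)
    (hcard : ∀ s, (M s + 1) ^ (D s) * (S s).card ≤ (X s).card)
    (hb : ∀ s, M s * 2 ^ ((n s) ^ (2 ^ (D s))) + ((S s).card + 1) * b s < 2 ^ (2 ^ (n s))) :
    ∃ W : Set (Str × Str), (∀ p ∈ W, ∃ s, p.1 ∈ X s ∧ p.2.length = 2 ^ (n s)) ∧
      ∀ s, ∀ a ∈ S s, ∃ x ∈ X s,
        (x ∈ testSet (orc A cap W) ↔ B s a x (orc A cap W)) := by
  choose Vf hVf1 hVf2 using fun (s : ℕ) (W₀ : Set (Str × Str)) =>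
    stage (cap := cap) hA W₀ (hn s) (X s) (S s) (B s) (hB s) (hM s) (hcard s) (hb s)
  set Wa : ℕ → Set (Str × Str) := fun s =>
    Nat.rec ∅ (fun s W => W ∪ (Vf s W : Set (Str × Str))) s with hWa
  have hWa0 : Wa 0 = ∅ := rfl
  have hWas : ∀ s, Wa (s + 1) = Wa s ∪ (Vf s (Wa s) : Set (Str × Str)) := fun s => rfl
  have hmem : ∀ s p, p ∈ Wa s ↔ ∃ r < s, p ∈ Vf r (Wa r) := by
    intro s
    induction s with
    | zero => intro p; simp [hWa0]
    | succ s ih =>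
      intro p
      rw [hWas, Set.mem_union, ih, Finset.mem_coe]
      constructor
      · rintro (⟨r, hr, h⟩ | h)
        · exact ⟨r, by omega, h⟩
        · exact ⟨s, by omega, h⟩
      · rintro ⟨r, hr, h⟩
        rcases Nat.lt_succ_iff_lt_or_eq.1 hr with h1 | rfl
        · exact Or.inl ⟨r, h1, h⟩
        · exact Or.inr h
  set W : Set (Str × Str) := {p | ∃ r, p ∈ Vf r (Wa r)} with hW
  have hmono : StrictMono n := strictMono_nat_of_lt_succ hlt
  have hagree : ∀ s, ∀ q : Str, q.length < 2 ^ ((n s) ^ (2 ^ (D s))) →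
      (q ∈ orc A cap W ↔ q ∈ orc A cap (Wa s ∪ (Vf s (Wa s) : Set (Str × Str)))) := by
    intro s q hq
    rw [← hWas]
    refine orc_local hA ?_ q hq
    intro x y hxy
    refine Iff.trans ?_ (hmem (s + 1) (x, y)).symm
    constructor
    · rintro ⟨r, hr⟩
      refine ⟨r, ?_, hr⟩
      by_contra hrs
      have h1 := (hVf1 r (Wa r) _ hr).2
      simp only at h1
      rw [tstr_length, h1] at hxy
      have h2 : n (s + 1) ≤ n r := hmono.monotone (by omega)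
      have h3 : 2 ^ ((n s) ^ (2 ^ (D s))) ≤ 2 ^ (n r) :=
        Nat.pow_le_pow_right (by omega) ((hgap s).trans h2)
      omega
    · rintro ⟨r, -, hr⟩
      exact ⟨r, hr⟩
  refine ⟨W, ?_, ?_⟩
  · rintro p ⟨r, hr⟩
    exact ⟨r, hVf1 r _ p hr⟩
  · intro s a ha
    obtain ⟨x, hx, h⟩ := hVf2 s (Wa s) a ha
    refine ⟨x, hx, ?_⟩
    rw [← (hB s a ha x hx).congr (hagree s), ← h]
    constructor
    · rintro ⟨y, hy⟩
      rw [tstr_mem_orc hA] at hy
      obtain ⟨r, hr⟩ := hy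
      have h1 := hX r _ (hVf1 r _ _ hr).1
      simp only at h1
      rw [hX s x hx] at h1
      have : s = r := hmono.injective h1
      subst this
      exact Finset.mem_image.2 ⟨(x, y), hr, rfl⟩
    · intro h1
      obtain ⟨⟨x', y⟩, hy, rfl⟩ := Finset.mem_image.1 h1
      refine ⟨y, ?_⟩
      rw [tstr_mem_orc hA]
      exact ⟨s, hy⟩

/-- A schedule: for each `s` a length `n s` that is good for the task `p s`, growing fast. -/
theorem exists_sched (p : ℕ → ℕ) (Good : ℕ → ℕ → Prop) (h : ℕ → ℕ → ℕ)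
    (hG : ∀ t N, ∃ n ≥ N, Good t n) :
    ∃ n : ℕ → ℕ, (∀ s, Good (p s) (n s)) ∧ (∀ s, h s (n s) ≤ n (s + 1)) ∧
      (∀ s, n s < n (s + 1)) ∧ ∀ s, s + 1 ≤ n s := by
  choose f hf1 hf2 using hG
  set n : ℕ → ℕ := fun s => Nat.rec (f (p 0) 1)
    (fun s m => f (p (s + 1)) (m + 1 + h s m)) s with hn
  have hn0 : n 0 = f (p 0) 1 := rfl
  have hns : ∀ s, n (s + 1) = f (p (s + 1)) (n s + 1 + h s (n s)) := fun s => rfl
  have hge : ∀ s, n s + 1 + h s (n s) ≤ n (s + 1) := by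
    intro s
    rw [hns]
    exact hf1 _ _
  refine ⟨n, ?_, ?_, ?_, ?_⟩
  · intro s
    cases s with
    | zero => exact hf2 _ _
    | succ s => rw [hns]; exact hf2 _ _
  · intro s
    have := hge s
    omega
  · intro s
    have := hge s
    omega
  · intro s
    induction s with
    | zero => rw [hn0]; exact hf1 _ _
    | succ s ih =>
      have := hge s
      omega

end Pool.Agent.Helper5.SX
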