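import Pool.Agent.Helper5.SX.Main
import Pool.Agent.Helper5.SX.Num2

/-!
# The census hierarchy theorem
-/

namespace Pool.Agent.Helper5.SX

open Classical Filter

/-- The census of `A` is at most `h(n^k+k)^k` for some `k`. -/
def CensusBd (h : ℕ → ℕ) (A : Set Str) : Prop := ∃ k : ℕ, ∀ n, census A n ≤ h (n ^ k + k) ^ k

theorem pow_add_mono {k i : ℕ} (h : k ≤ i) (m : ℕ) : m ^ k + k ≤ m ^ i + i := by
  rcases Nat.eq_zero_or_pos m with rfl | hm
  · rcases Nat.eq_zero_or_pos k with rfl | hk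
    · rcases Nat.eq_zero_or_pos i with rfl | hi
      · exact le_rfl
      · exact le_trans hi (Nat.le_add_left i (0 ^ i))
    · rw [zero_pow (by omega), zero_pow (by omega)]
      omega
  · exact Nat.add_le_add (Nat.pow_le_pow_right hm h) h

theorem hpow_mono {h : ℕ → ℕ} (hh : Monotone h) (hh' : ∀ n, n ≤ h n) {k i : ℕ} (hki : k ≤ i)
    (m : ℕ) : h (m ^ k + k) ^ k ≤ h (m ^ i + i) ^ i := by
  have h1 : 1 ≤ m ^ i + i := by
    rcases Nat.eq_zero_or_pos i with rfl | hi
    · simp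
    · omega
  calc h (m ^ k + k) ^ k ≤ h (m ^ i + i) ^ k :=
        Nat.pow_le_pow_left (hh (pow_add_mono hki m)) _
    _ ≤ h (m ^ i + i) ^ i := Nat.pow_le_pow_right (h1.trans (hh' _)) hki

theorem Sparse.censusBd {A : Set Str} (hA : Sparse A) {h : ℕ → ℕ} (hh' : ∀ n, n ≤ h n) :
    CensusBd h A := by
  obtain ⟨k, hk⟩ := hA
  refine ⟨k + 1, fun n => (hk n).trans ?_⟩
  have h1 : 1 ≤ n ^ (k + 1) + (k + 1) := by omega
  calc n ^ k + k ≤ n ^ (k + 1) + (k + 1) := pow_add_mono (Nat.le_succ k) n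
    _ ≤ h (n ^ (k + 1) + (k + 1)) := hh' _
    _ = h (n ^ (k + 1) + (k + 1)) ^ 1 := (pow_one _).symm
    _ ≤ _ := Nat.pow_le_pow_right (h1.trans (hh' _)) (by omega)

theorem NEXPAdv_mono (O : Set Str) {α β : ℕ → ℕ} (h : ∀ n, α n ≤ β n) :
    NEXPAdv O α ⊆ NEXPAdv O β := by
  rintro A ⟨c, k, a, ha, hc⟩
  exact ⟨c, k, a, fun n => (ha n).trans (h n), hc⟩

theorem hierarchy (h g α : ℕ → ℕ) (hh : Monotone h) (hh' : ∀ n, n ≤ h n)
    (hg : ∀ n, g n ≤ 2 ^ n)
    (hyp : ∀ k : ℕ, ∃ᶠ n in atTop, 2 ^ α n * h (n ^ k + k) ^ k ≤ g n) :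
    ∃ O : Set Str, (∀ A ∈ NEXP O, CensusBd h A → A ∈ EXP O) ∧
      ∃ T ∈ NE O, (∀ n, census T n ≤ g n) ∧ Tᶜ ∉ NEXPAdv O α := by
  obtain ⟨f', hf, hf'⟩ := exists_enum
  choose K hK using fun (k J : ℕ) => exists_exponent' k J hh hh'
  choose Na hNa using exists_threshold_a
  choose Nc hNc using exists_threshold_c
  choose Sa hSa1 hSa2 using exists_short
  -- task of the stage `s`
  set q : ℕ → Cmd × ℕ := fun s => f' s.unpair.1 with hq
  obtain ⟨n, hn1, hn2, hn3, hn4⟩ := exists_sched (fun s => s)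
    (fun s n => 2 + Na (q s).2 + Nc (q s).2 ≤ n ∧
      2 ^ α n * h (n ^ (K (q s).2 s) + K (q s).2 s) ^ (K (q s).2 s) ≤ g n)
    (fun s n => n ^ (2 ^ ((q s).2 + 1)))
    (by
      intro s N
      obtain ⟨n, hn, hn'⟩ := Filter.frequently_atTop.1 (hyp (K (q s).2 s))
        (N + 2 + Na (q s).2 + Nc (q s).2)
      exact ⟨n, by omega, by omega, hn'⟩)
  set lam : ℕ → ℕ := fun s => (n s) ^ (2 ^ ((q s).2 + 1)) with hlam
  have hlam1 : ∀ s, 1 ≤ lam s := fun s => Nat.one_le_pow _ _ (by have := (hn1 s).1; omega)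
  -- the indices at which programs are coded
  set F : ℕ → ℕ := fun i => i + ∑ s ∈ Finset.range i, lam s with hF
  have hFlt : ∀ i, F i < F (i + 1) := by
    intro i
    simp only [hF]
    rw [Finset.sum_range_succ]
    omega
  have hFmono : StrictMono F := strictMono_nat_of_lt_succ hFlt
  have hFge : ∀ i, i ≤ F i := fun i => Nat.le_add_right _ _
  have hFlam : ∀ i s, F i < lam s → i ≤ s := by
    intro i s his
    by_contra hcon
    have h1 : lam s ≤ ∑ r ∈ Finset.range i, lam r :=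
      Finset.single_le_sum (f := lam) (fun _ _ => Nat.zero_le _)
        (Finset.mem_range.2 (by omega))
    simp only [hF] at his
    omega
  set f : ℕ → Cmd × ℕ := fun i => if hi : ∃ j, F j = i then f' hi.choose else (Cmd.skip, 0)
    with hfdef
  have hfF : ∀ j, f (F j) = f' j := by
    intro j
    have hi : ∃ j', F j' = F j := ⟨j, rfl⟩
    simp only [hfdef, dif_pos hi]
    rw [hFmono.injective hi.choose_spec]
  have hfle : ∀ i, (f i).2 ≤ i := by
    intro i
    by_cases hi : ∃ j, F j = i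
    · obtain ⟨j, rfl⟩ := hi
      rw [hfF]
      exact (hf j).trans (hFge j)
    · simp only [hfdef, dif_neg hi]
      exact Nat.zero_le _
  set cap : ℕ → ℕ → ℕ := fun i m => if hi : ∃ j, F j = i then
    h (m ^ hi.choose + hi.choose) ^ hi.choose + 1 else 0 with hcap
  have hcapF : ∀ j m, cap (F j) m = h (m ^ j + j) ^ j + 1 := by
    intro j m
    have hi : ∃ j', F j' = F j := ⟨j, rfl⟩
    simp only [hcap, dif_pos hi]
    rw [hFmono.injective hi.choose_spec]
  have hcaple : ∀ s, ∀ p ∈ Rl (lam s), cap p.1 p.2 ≤ h (lam s ^ s + s) ^ s + 1 := by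
    intro s p hp
    rw [mem_Rl] at hp
    have h1 := lt_ee p.1 p.2
    have h2 := lt_ee' p.1 p.2
    by_cases hi : ∃ j, F j = p.1
    · obtain ⟨j, hj⟩ := hi
      rw [← hj, hcapF]
      have h3 : j ≤ s := hFlam j s (by rw [hj]; omega)
      apply Nat.succ_le_succ
      refine (hpow_mono hh hh' h3 p.2).trans (Nat.pow_le_pow_left (hh ?_) _)
      exact Nat.add_le_add_right (Nat.pow_le_pow_left (by omega) _) _
    · simp only [hcap, dif_neg hi]
      exact Nat.zero_le _
  have hA := tame_famA hfle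
  choose Xb hXb1 hXb2 using fun m => exists_block m (g m) (hg m)
  set M : ℕ → ℕ := fun s => (lam s) ^ 2 * (h (lam s ^ s + s) ^ s + 1) with hMdef
  have hcardS : ∀ s, (M s + 1) ^ ((q s).2 + 1) * (Sa (α (n s))).card ≤ g (n s) := by
    intro s
    have h1 := hK (q s).2 s (n s) (by have := (hn1 s).1; omega)
    refine le_trans ?_ (hn1 s).2
    calc (M s + 1) ^ ((q s).2 + 1) * (Sa (α (n s))).card
        ≤ (M s + 1) ^ ((q s).2 + 1) * (2 * 2 ^ α (n s)) :=
          Nat.mul_le_mul_left _ (hSa2 _)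
      _ = 2 ^ α (n s) * ((M s + 1) ^ ((q s).2 + 1) * 2) := by ring
      _ ≤ _ := Nat.mul_le_mul_left _ h1
  have hSpos : ∀ s, 1 ≤ (Sa (α (n s))).card := by
    intro s
    apply Finset.card_pos.2
    exact ⟨[], (hSa1 _ _).2 (Nat.zero_le _)⟩
  have hMle : ∀ s, M s + 1 ≤ 2 ^ (n s) := by
    intro s
    refine le_trans ?_ ((hcardS s).trans (hg _))
    calc M s + 1 = (M s + 1) ^ 1 * 1 := by ring
      _ ≤ _ := Nat.mul_le_mul (Nat.pow_le_pow_right (by omega) (by omega)) (hSpos s)
  have hSle : ∀ s, (Sa (α (n s))).card ≤ 2 ^ (n s) := by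
    intro s
    refine le_trans ?_ ((hcardS s).trans (hg _))
    exact Nat.le_mul_of_pos_left _ (Nat.pow_pos (Nat.succ_pos _))
  have hαn : ∀ s, α (n s) ≤ n s := by
    intro s
    have h1 := (hn1 s).2.trans (hg (n s))
    have h2 : 1 ≤ h ((n s) ^ (K (q s).2 s) + K (q s).2 s) ^ (K (q s).2 s) := by
      apply Nat.one_le_pow
      have h3 : 1 ≤ (n s) ^ (K (q s).2 s) := Nat.one_le_pow _ _ (by have := (hn1 s).1; omega)
      have h4 := hh' ((n s) ^ (K (q s).2 s) + K (q s).2 s)
      omega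
    have h3 : 2 ^ α (n s) ≤ 2 ^ (n s) := (Nat.le_mul_of_pos_right _ h2).trans h1
    exact (Nat.pow_le_pow_iff_right (by omega)).1 h3
  obtain ⟨W, hW1, hW2⟩ := global (cap := cap) hA n (fun s => (q s).2 + 1) M
    (fun s => 2 ^ ((n s) ^ (q s).2 + (q s).2)) (fun s => Xb (n s)) (fun s => Sa (α (n s)))
    (fun s a x O => Acc O (q s).1 x a (2 ^ (x.length ^ (q s).2 + (q s).2)))
    (fun s => by have := (hn1 s).1; omega) hn2 hn3 (fun s x hx => hXb1 _ x hx)
    (by
      intro s a ha x hx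
      have hx1 := hXb1 _ x hx
      have ha1 := (hSa1 _ _).1 ha
      have h2 := hαn s
      have h3 := hNa (q s).2 (n s) (by have := (hn1 s).1; omega)
      simp only [hx1]
      refine (useBd_acc _ x a _).mono le_rfl ?_
      rw [hx1]
      omega)
    (by
      intro s
      calc ∑ p ∈ Rl (lam s), cap p.1 p.2
          ≤ ∑ p ∈ Rl (lam s), (h (lam s ^ s + s) ^ s + 1) :=
            Finset.sum_le_sum (hcaple s)
        _ = (Rl (lam s)).card * (h (lam s ^ s + s) ^ s + 1) := by
            rw [Finset.sum_const, smul_eq_mul]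
        _ ≤ (lam s) ^ 2 * (h (lam s ^ s + s) ^ s + 1) := by
            apply Nat.mul_le_mul_right
            refine (Finset.card_filter_le _ _).trans ?_
            rw [Finset.card_product, Finset.card_range, sq])
    (by
      intro s
      rw [hXb2]
      exact hcardS s)
    (by
      intro s
      have h1 := hNc (q s).2 (n s) (by have := (hn1 s).1; omega)
      have h2 := hMle s
      have h3 := hSle s
      refine lt_of_le_of_lt ?_ h1
      exact Nat.add_le_add (Nat.mul_le_mul_right _ (by omega))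
        (Nat.mul_le_mul_right _ (by omega)))
  have hmono : StrictMono n := strictMono_nat_of_lt_succ hn3
  refine ⟨orc (famA f) cap W, ?_, testSet (orc (famA f) cap W), ?_, ?_, ?_⟩
  · rintro T ⟨k, c, hc⟩ ⟨k', hk'⟩
    obtain ⟨j, hj, hfj⟩ := hf' c k k'
    have hfam : ∀ x, famA f (F j) x (orc (famA f) cap W) ↔ x ∈ T := by
      intro x
      unfold famA
      rw [hfF, hfj]
      exact (hc x).symm
    have hlive : ∀ m, live (famA f) cap (F j) m (orc (famA f) cap W) := by
      intro m m' _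
      have h1 : cnt (famA f) (F j) m' (orc (famA f) cap W) = census T m' := by
        unfold cnt census
        congr 1
        ext x
        simp only [Set.mem_setOf_eq]
        rw [hfam x]
        tauto
      rw [h1, hcapF]
      exact Nat.lt_succ_of_le ((hk' m').trans (hpow_mono hh hh' hj m'))
    have hcode : T = codeSet (orc (famA f) cap W) (F j) := by
      ext x
      unfold codeSet
      rw [Set.mem_setOf_eq, cstr_mem_orc hA, hfam]
      exact ⟨fun h => ⟨hlive _, h⟩, fun h => h.2⟩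
    rw [hcode]
    exact codeSet_mem_EXP _ _
  · apply testSet_mem_NE
    intro x y hxy
    rw [tstr_mem_orc hA] at hxy
    obtain ⟨s, h1, h2⟩ := hW1 _ hxy
    simp only at h1 h2
    rw [h2, hXb1 _ x h1]
  · exact census_test hA hmono.injective (fun s x hx => hXb1 _ x hx) hW1 (fun s => hXb2 _)
  · rintro ⟨c, k, a, ha, hc⟩
    obtain ⟨t, -, ht⟩ := hf' c k 0
    set s := Nat.pair t 0 with hs
    have hqs : q s = (c, k) := by
      simp only [hq, hs, Nat.unpair_pair]
      exact ht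
    obtain ⟨x, hx, hx2⟩ := hW2 s (a (n s)) ((hSa1 _ _).2 (ha _))
    have hxl := hXb1 _ x hx
    simp only [hqs] at hx2
    have h3 := hc x
    rw [hxl] at h3 hx2
    rw [← h3] at hx2
    simp only [Set.mem_compl_iff] at hx2
    tauto

end Pool.Agent.Helper5.SX
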