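import Pool.Agent.Helper5.SX.Stage

/-!
# Numerical facts
-/

namespace Pool.Agent.Helper5.SX

/-- `(n+2)^(i+1) ≥ 2 (n+2)^i ≥ (n+2)^k + 2^i`. -/
theorem pow_add_lt_ee {k i : ℕ} (h : k ≤ i) (n : ℕ) : n ^ k + k < ee i n := by
  unfold ee
  have h1 : n ^ k ≤ (n + 2) ^ i :=
    (Nat.pow_le_pow_left (by omega) k).trans (Nat.pow_le_pow_right (by omega) h)
  have h2 : k < (n + 2) ^ i :=
    lt_of_le_of_lt h (lt_of_lt_of_le Nat.lt_two_pow_self (Nat.pow_le_pow_left (by omega) i))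
  have h3 : (n + 2) ^ (i + 1) = (n + 2) ^ i * (n + 2) := pow_succ _ _
  have h4 : (n + 2) ^ i * 2 ≤ (n + 2) ^ i * (n + 2) := Nat.mul_le_mul_left _ (by omega)
  omega

/-- There are at most `l^2` pairs, each term is less than `l`. -/
theorem sum_ee_le (l : ℕ) : ∑ p ∈ Rl l, ee p.1 p.2 ≤ l ^ 3 := by
  have h1 : ∑ p ∈ Rl l, ee p.1 p.2 ≤ (Rl l).card • l :=
    Finset.sum_le_card_nsmul _ _ _ fun p hp => (mem_Rl.1 hp).le
  have h2 : (Rl l).card ≤ l * l := by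
    unfold Rl
    refine (Finset.card_filter_le _ _).trans ?_
    rw [Finset.card_product, Finset.card_range]
  calc ∑ p ∈ Rl l, ee p.1 p.2 ≤ (Rl l).card • l := h1
    _ = (Rl l).card * l := by rw [smul_eq_mul]
    _ ≤ l * l * l := Nat.mul_le_mul_right _ h2
    _ = l ^ 3 := by ring

theorem num_aux (k n : ℕ) (h : k + 4 ≤ n) : n ^ k + k + n + 2 ≤ n ^ (2 ^ (k + 1)) := by
  have h1 : k + 2 ≤ 2 ^ (k + 1) := by
    have : k + 1 < 2 ^ (k + 1) := Nat.lt_two_pow_self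
    omega
  have h2 : n ^ (k + 2) ≤ n ^ (2 ^ (k + 1)) := Nat.pow_le_pow_right (by omega) h1
  refine le_trans ?_ h2
  have h3 : 1 ≤ n ^ k := Nat.one_le_pow _ _ (by omega)
  have h4 : 1 + (k + n + 2) ≤ n ^ 2 := by nlinarith
  calc n ^ k + k + n + 2 = n ^ k * 1 + 1 * (k + n + 2) := by ring
    _ ≤ n ^ k * 1 + n ^ k * (k + n + 2) := Nat.add_le_add_left (Nat.mul_le_mul_right _ h3) _
    _ = n ^ k * (1 + (k + n + 2)) := by ring
    _ ≤ n ^ k * n ^ 2 := Nat.mul_le_mul_left _ h4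
    _ = n ^ (k + 2) := by rw [pow_add]

/-- For large `n`: `n^k + k + n + 2 ≤ n^(k+2) ≤ n^(2^(k+1))`. -/
theorem exists_threshold_a (k : ℕ) : ∃ N, ∀ n ≥ N,
    2 * n + 2 ^ (n ^ k + k) < 2 ^ (n ^ (2 ^ (k + 1))) := by
  refine ⟨k + 4, fun n hn => ?_⟩
  have h1 := num_aux k n hn
  have h2 : 2 ^ (n ^ k + k + (n + 2)) ≤ 2 ^ (n ^ (2 ^ (k + 1))) :=
    Nat.pow_le_pow_right (by omega) (by omega)
  refine lt_of_lt_of_le ?_ h2
  rw [pow_add _ (n ^ k + k)]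
  have h3 : 1 ≤ 2 ^ (n ^ k + k) := Nat.one_le_pow _ _ (by omega)
  have h4 : n < 2 ^ n := Nat.lt_two_pow_self
  have h5 : 2 ^ (n + 2) = 4 * 2 ^ n := by rw [pow_add]; ring
  have h6 : 1 ≤ 2 ^ n := Nat.one_le_pow _ _ (by omega)
  rw [h5]
  nlinarith [Nat.mul_le_mul h3 h6, Nat.mul_le_mul_right (2 ^ n) h3]

theorem num_exp (c : ℕ) : ∃ N, ∀ n ≥ N, 4 * n ^ c + 1 < 2 ^ n := by
  have h := tendsto_pow_const_div_const_pow_of_one_lt c (r := (2 : ℝ)) (by norm_num)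
  have h2 := (h.eventually (gt_mem_nhds (show (0 : ℝ) < 1 / 8 by norm_num))).and
    (Filter.eventually_ge_atTop 1)
  obtain ⟨N, hN⟩ := Filter.eventually_atTop.1 h2
  refine ⟨N, fun n hn => ?_⟩
  obtain ⟨h3, h4⟩ := hN n hn
  have h5 : (0 : ℝ) < 2 ^ n := by positivity
  rw [div_lt_iff₀ h5] at h3
  have h6 : (8 : ℝ) * (n : ℝ) ^ c < 2 ^ n := by linarith
  have h7 : 8 * n ^ c < 2 ^ n := by exact_mod_cast h6
  have h8 : 1 ≤ n ^ c := Nat.one_le_pow _ _ (by omega)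
  omega

/-- For large `n`. The left side is at most `2^(5 * n^(2^(k+1)) + 2)` and polynomials are
eventually less than `2^n`. -/
theorem exists_threshold_b (k : ℕ) : ∃ N, ∀ n ≥ N,
    (n ^ (2 ^ (k + 1))) ^ 3 * 2 ^ (n ^ (2 ^ (k + 1))) + (2 ^ n + 1) * 2 ^ (n ^ k + k) <
      2 ^ (2 ^ n) := by
  obtain ⟨N, hN⟩ := num_exp (2 ^ (k + 1))
  refine ⟨max N (k + 4), fun n hn => ?_⟩
  have h1 := hN n (le_trans (le_max_left _ _) hn)
  have h2 := num_aux k n (le_trans (le_max_right _ _) hn)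
  generalize n ^ (2 ^ (k + 1)) = T at h1 h2 ⊢
  have h3 : T ^ 3 ≤ 2 ^ (3 * T) := by
    rw [mul_comm, pow_mul]
    exact Nat.pow_le_pow_left Nat.lt_two_pow_self.le 3
  have h4 : T ^ 3 * 2 ^ T ≤ 2 ^ (4 * T) := by
    calc T ^ 3 * 2 ^ T ≤ 2 ^ (3 * T) * 2 ^ T := Nat.mul_le_mul_right _ h3
      _ = 2 ^ (4 * T) := by rw [← pow_add]; congr 1; ring
  have h5 : (2 ^ n + 1) * 2 ^ (n ^ k + k) ≤ 2 ^ (4 * T) := by
    have h6 : 1 ≤ 2 ^ n := Nat.one_le_pow _ _ (by omega)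
    calc (2 ^ n + 1) * 2 ^ (n ^ k + k) ≤ 2 ^ (n + 1) * 2 ^ (n ^ k + k) :=
          Nat.mul_le_mul_right _ (by rw [pow_succ]; omega)
      _ = 2 ^ (n + 1 + (n ^ k + k)) := by rw [← pow_add]
      _ ≤ 2 ^ (4 * T) := Nat.pow_le_pow_right (by omega) (by omega)
  calc T ^ 3 * 2 ^ T + (2 ^ n + 1) * 2 ^ (n ^ k + k) ≤ 2 ^ (4 * T) + 2 ^ (4 * T) := by omega
    _ = 2 ^ (4 * T + 1) := by rw [pow_succ]; ring
    _ < 2 ^ (2 ^ n) := Nat.pow_lt_pow_right (by omega) h1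

/-- `(n^(3 * 2^(k+1)) + 1)^(k+1) * 2 ≤ n^K` for `n ≥ 2`. -/
theorem exists_exponent (k : ℕ) : ∃ K, ∀ n ≥ 2,
    ((n ^ (2 ^ (k + 1))) ^ 3 + 1) ^ (k + 1) * 2 ≤ n ^ K := by
  refine ⟨(2 ^ (k + 1) * 3 + 1) * (k + 1) + 1, fun n hn => ?_⟩
  have h1 : (n ^ (2 ^ (k + 1))) ^ 3 + 1 ≤ n ^ (2 ^ (k + 1) * 3 + 1) := by
    rw [← pow_mul, pow_succ n (2 ^ (k + 1) * 3)]
    have h3 : 1 ≤ n ^ (2 ^ (k + 1) * 3) := Nat.one_le_pow _ _ (by omega)
    nlinarith
  calc ((n ^ (2 ^ (k + 1))) ^ 3 + 1) ^ (k + 1) * 2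
      ≤ (n ^ (2 ^ (k + 1) * 3 + 1)) ^ (k + 1) * n :=
        Nat.mul_le_mul (Nat.pow_le_pow_left h1 _) hn
    _ = n ^ ((2 ^ (k + 1) * 3 + 1) * (k + 1) + 1) := by
        rw [← pow_mul, pow_succ n ((2 ^ (k + 1) * 3 + 1) * (k + 1))]

/-- The advice strings `a` with `2^|a| * m ≤ g` are the strings of length at most some `l` with
`2^l * m ≤ g`; there are `2^(l+1) - 1` of them. -/
theorem exists_advice (m g : ℕ) (hm : 1 ≤ m) (hg : m ≤ g) : ∃ S : Finset Str,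
    (∀ a : Str, a ∈ S ↔ 2 ^ a.length * m ≤ g) ∧ S.card * m ≤ 2 * g := by
  classical
  have hq : g / m ≠ 0 := by
    have : 1 ≤ g / m := (Nat.one_le_div_iff (by omega)).2 hg
    omega
  have hiff : ∀ j : ℕ, 2 ^ j * m ≤ g ↔ j ≤ Nat.log 2 (g / m) := by
    intro j
    rw [← Nat.le_div_iff_mul_le (by omega)]
    exact (Nat.le_log_iff_pow_le (by norm_num) hq).symm
  refine ⟨(Finset.range (Nat.log 2 (g / m) + 1)).biUnion fun j => (finite_len j).toFinset,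
    fun a => ?_, ?_⟩
  · rw [Finset.mem_biUnion, hiff]
    constructor
    · rintro ⟨j, hj, ha⟩
      rw [Set.Finite.mem_toFinset] at ha
      rw [Finset.mem_range] at hj
      have ha' : a.length = j := ha
      omega
    · intro h
      exact ⟨a.length, Finset.mem_range.2 (by omega), (Set.Finite.mem_toFinset _).2 rfl⟩
  · have h1 : ((Finset.range (Nat.log 2 (g / m) + 1)).biUnion
        fun j => (finite_len j).toFinset).card ≤ 2 ^ (Nat.log 2 (g / m) + 1) := by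
      refine Finset.card_biUnion_le.trans ?_
      calc ∑ j ∈ Finset.range (Nat.log 2 (g / m) + 1), (finite_len j).toFinset.card
          = ∑ j ∈ Finset.range (Nat.log 2 (g / m) + 1), 2 ^ j :=
            Finset.sum_congr rfl fun j _ => card_len j
        _ ≤ 2 ^ (Nat.log 2 (g / m) + 1) := by
            rw [Nat.geomSum_eq (le_refl 2)]
            simp
    have h2 : 2 ^ (Nat.log 2 (g / m)) * m ≤ g := (hiff _).2 le_rfl
    calc _ ≤ 2 ^ (Nat.log 2 (g / m) + 1) * m := Nat.mul_le_mul_right _ h1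
      _ = 2 * (2 ^ (Nat.log 2 (g / m)) * m) := by rw [pow_succ]; ring
      _ ≤ 2 * g := by omega

/-- The strings with `2^(|a|+1) ≤ g + 1`; there are at most `g` of them. -/
theorem exists_advice' (g : ℕ) (hg : 1 ≤ g) : ∃ S : Finset Str,
    (∀ a : Str, a ∈ S ↔ 2 ^ (a.length + 1) ≤ g + 1) ∧ S.card ≤ g := by
  classical
  have hiff : ∀ j : ℕ, 2 ^ (j + 1) ≤ g + 1 ↔ j + 1 ≤ Nat.log 2 (g + 1) := fun j =>
    (Nat.le_log_iff_pow_le (by norm_num) (by omega)).symm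
  refine ⟨(Finset.range (Nat.log 2 (g + 1))).biUnion fun j => (finite_len j).toFinset,
    fun a => ?_, ?_⟩
  · rw [Finset.mem_biUnion, hiff]
    constructor
    · rintro ⟨j, hj, ha⟩
      rw [Set.Finite.mem_toFinset] at ha
      rw [Finset.mem_range] at hj
      have ha' : a.length = j := ha
      omega
    · intro h
      exact ⟨a.length, Finset.mem_range.2 (by omega), (Set.Finite.mem_toFinset _).2 rfl⟩
  · have h1 : ((Finset.range (Nat.log 2 (g + 1))).biUnion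
        fun j => (finite_len j).toFinset).card ≤ 2 ^ (Nat.log 2 (g + 1)) - 1 := by
      refine Finset.card_biUnion_le.trans ?_
      calc ∑ j ∈ Finset.range (Nat.log 2 (g + 1)), (finite_len j).toFinset.card
          = ∑ j ∈ Finset.range (Nat.log 2 (g + 1)), 2 ^ j :=
            Finset.sum_congr rfl fun j _ => card_len j
        _ ≤ 2 ^ (Nat.log 2 (g + 1)) - 1 := by
            rw [Nat.geomSum_eq (le_refl 2)]
            simp
    have h2 : 2 ^ (Nat.log 2 (g + 1)) ≤ g + 1 := Nat.pow_log_le_self 2 (by omega)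
    omega

end Pool.Agent.Helper5.SX
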