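import Pool.Agent.Helper5.SX.Model

/-!
# The test set is in NE relative to its oracle
-/

namespace Pool.Agent.Helper5.SX

/-- The store with `a`, `b`, `c`, `d` on the stacks `0`, `2`, `3`, `4` and nothing else. -/
private def St (a b c d : Str) : Store := fun r =>
  if r = 0 then a else if r = 2 then b else if r = 3 then c else if r = 4 then d else []

private lemma St0 (a b c d : Str) : St a b c d 0 = a := by simp [St]
private lemma St2 (a b c d : Str) : St a b c d 2 = b := by simp [St]
private lemma St3 (a b c d : Str) : St a b c d 3 = c := by simp [St]
private lemma St4 (a b c d : Str) : St a b c d 4 = d := by simp [St]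

private lemma up0 (a b c d w : Str) : Function.update (St a b c d) 0 w = St w b c d := by
  funext r
  by_cases h : r = 0
  · subst h; simp [St]
  · rw [Function.update_of_ne h]; simp [St, h]

private lemma up2 (a b c d w : Str) : Function.update (St a b c d) 2 w = St a w c d := by
  funext r
  by_cases h : r = 2
  · subst h; simp [St]
  · rw [Function.update_of_ne h]; simp [St, h]

private lemma up3 (a b c d w : Str) : Function.update (St a b c d) 3 w = St a b w d := by
  funext r
  by_cases h : r = 3
  · subst h; simp [St]
  · rw [Function.update_of_ne h]; simp [St, h]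

private lemma up4 (a b c d w : Str) : Function.update (St a b c d) 4 w = St a b c w := by
  funext r
  by_cases h : r = 4
  · subst h; simp [St]
  · rw [Function.update_of_ne h]; simp [St, h]

private lemma start_eq (x : Str) : start x [] = St x [] [] [] := by
  funext r
  simp [start, St]

/-- Guess a string on stack 3. -/
private def guess : Cmd :=
  Cmd.loop 4 (Cmd.choose (Cmd.pop 4 Cmd.skip Cmd.skip Cmd.skip)
    (Cmd.choose (Cmd.push 3 false) (Cmd.push 3 true)))

/-- Write the code of stack 0 in front of stack 3. -/
private def enc : Cmd :=
  Cmd.loop 0 (Cmd.pop 0 Cmd.skip (Cmd.seq (Cmd.push 3 false) (Cmd.push 3 true))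
    (Cmd.seq (Cmd.push 3 true) (Cmd.push 3 true)))

private lemma guess_run (O : Set Str) (a b : Str) (z : Str) : ∀ c : Str,
    ∃ t ≤ 4 * z.length + 5, Run O guess (St a b c [true]) t (St a b (z.reverse ++ c) []) := by
  induction z with
  | nil =>
    intro c
    refine ⟨3 + 1 + 1, by simp, ?_⟩
    refine Run.loop_cons (s' := St a b c []) (by rw [St4]; simp) ?_ ?_
    · refine Run.choose_left (t := 2) (Run.pop_true (t := 1) (w := []) (St4 _ _ _ _) ?_)
      rw [up4]
      exact Run.skip _
    · exact Run.loop_nil (St4 _ _ _ _)
  | cons e z ih =>
    intro c
    obtain ⟨t, ht, hr⟩ := ih (e :: c)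
    refine ⟨3 + t + 1, by simp only [List.length_cons]; omega, ?_⟩
    refine Run.loop_cons (s' := St a b (e :: c) [true]) (by rw [St4]; simp) ?_ ?_
    · refine Run.choose_right (t := 2) ?_
      cases e with
      | false =>
        refine Run.choose_left (t := 1) ?_
        have := Run.push (O := O) 3 false (St a b c [true])
        rwa [up3, St3] at this
      | true =>
        refine Run.choose_right (t := 1) ?_
        have := Run.push (O := O) 3 true (St a b c [true])
        rwa [up3, St3] at this
    · have e1 : (e :: z).reverse ++ c = z.reverse ++ e :: c := by simp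
      rw [e1]
      exact hr

private lemma guess_inv (O : Set Str) (a b : Str) (t : ℕ) : ∀ (c : Str) (s' : Store),
    Run O guess (St a b c [true]) t s' → ∃ y, s' = St a b y [] := by
  induction t using Nat.strong_induction_on with
  | _ t ih =>
    intro c s' h
    cases h with
    | loop_nil hs => rw [St4] at hs; simp at hs
    | loop_cons hne h1 h2 =>
      cases h1 with
      | choose_left h1 =>
        cases h1 with
        | pop_nil hs _ => rw [St4] at hs; simp at hs
        | pop_false hs _ => rw [St4] at hs; simp at hs
        | pop_true hs h3 =>
          rw [St4] at hs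
          obtain ⟨-, hw⟩ := List.cons.inj hs
          subst hw
          rw [up4] at h3
          cases h3 with
          | skip =>
            cases h2 with
            | loop_nil _ => exact ⟨c, rfl⟩
            | loop_cons hne' _ _ => exact absurd (St4 _ _ _ _) hne'
      | choose_right h1 =>
        cases h1 with
        | choose_left h1 =>
          cases h1 with
          | push =>
            rw [up3] at h2
            exact ih _ (by omega) _ _ h2
        | choose_right h1 =>
          cases h1 with
          | push =>
            rw [up3] at h2
            exact ih _ (by omega) _ _ h2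

private lemma enc_run (O : Set Str) (b d : Str) (x : Str) : ∀ c : Str,
    ∃ t ≤ 4 * x.length + 1, Run O enc (St x b c d) t (St [] b (penc x c) d) := by
  induction x with
  | nil =>
    intro c
    exact ⟨1, by simp, Run.loop_nil (St0 _ _ _ _)⟩
  | cons e x ih =>
    intro c
    obtain ⟨t, ht, hr⟩ := ih (true :: e :: c)
    refine ⟨3 + t + 1, by simp only [List.length_cons]; omega, ?_⟩
    refine Run.loop_cons (s' := St x b (true :: e :: c) d) (by rw [St0]; simp) ?_ hr
    cases e with
    | false =>
      refine Run.pop_false (t := 2) (w := x) (St0 _ _ _ _) ?_
      rw [up0]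
      have h1 := Run.push (O := O) 3 false (St x b c d)
      rw [up3, St3] at h1
      have h2 := Run.push (O := O) 3 true (St x b (false :: c) d)
      rw [up3, St3] at h2
      exact Run.seq h1 h2
    | true =>
      refine Run.pop_true (t := 2) (w := x) (St0 _ _ _ _) ?_
      rw [up0]
      have h1 := Run.push (O := O) 3 true (St x b c d)
      rw [up3, St3] at h1
      have h2 := Run.push (O := O) 3 true (St x b (true :: c) d)
      rw [up3, St3] at h2
      exact Run.seq h1 h2

private lemma enc_inv (O : Set Str) (b d : Str) (x : Str) : ∀ (c : Str) (t : ℕ) (s' : Store),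
    Run O enc (St x b c d) t s' → s' = St [] b (penc x c) d := by
  induction x with
  | nil =>
    intro c t s' h
    cases h with
    | loop_nil _ => rfl
    | loop_cons hne _ _ => exact absurd (St0 _ _ _ _) hne
  | cons e x ih =>
    intro c t s' h
    cases h with
    | loop_nil hs => rw [St0] at hs; simp at hs
    | loop_cons hne h1 h2 =>
      cases h1 with
      | pop_nil hs _ => rw [St0] at hs; simp at hs
      | pop_false hs h3 =>
        rw [St0] at hs
        obtain ⟨he, hw⟩ := List.cons.inj hs
        subst hw he
        rw [up0] at h3
        cases h3 with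
        | seq h4 h5 =>
          cases h4 with
          | push =>
            cases h5 with
            | push =>
              rw [up3, up3, St3, St3] at h2
              rw [ih _ _ _ h2]
              rfl
      | pop_true hs h3 =>
        rw [St0] at hs
        obtain ⟨he, hw⟩ := List.cons.inj hs
        subst hw he
        rw [up0] at h3
        cases h3 with
        | seq h4 h5 =>
          cases h4 with
          | push =>
            cases h5 with
            | push =>
              rw [up3, up3, St3, St3] at h2
              rw [ih _ _ _ h2]
              rfl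

private def prog : Cmd :=
  Cmd.seq (Cmd.push 4 true) (Cmd.seq guess (Cmd.seq (Cmd.push 3 false) (Cmd.seq enc
    (Cmd.seq (Cmd.push 3 false) (Cmd.query 3 (Cmd.push 2 true) Cmd.skip)))))

private lemma prog_run (O : Set Str) (x y : Str) (h : tstr x y ∈ O) :
    ∃ t ≤ 4 * y.length + 4 * x.length + 11, ∃ s' : Store,
      Run O prog (St x [] [] []) t s' ∧ s' 2 ≠ [] := by
  obtain ⟨t1, ht1, h1⟩ := guess_run O x [] y.reverse []
  obtain ⟨t2, ht2, h2⟩ := enc_run O [] [] x (false :: y)
  rw [List.reverse_reverse, List.append_nil] at h1
  rw [List.length_reverse] at ht1
  have p1 := Run.push (O := O) 4 true (St x [] [] [])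
  rw [up4, St4] at p1
  have p2 := Run.push (O := O) 3 false (St x [] y [])
  rw [up3, St3] at p2
  have p3 := Run.push (O := O) 3 false (St [] [] (penc x (false :: y)) [])
  rw [up3, St3] at p3
  have p4 := Run.push (O := O) 2 true (St [] [] (false :: penc x (false :: y)) [])
  rw [up2, St2] at p4
  have p5 := Run.query_yes (O := O) (r := 3) (c := Cmd.push 2 true) (d := Cmd.skip)
    (s := St [] [] (false :: penc x (false :: y)) []) (by rw [St3]; exact h) p4
  refine ⟨1 + (t1 + (1 + (t2 + (1 + (1 + 1))))), by omega, _,
    Run.seq p1 (Run.seq h1 (Run.seq p2 (Run.seq h2 (Run.seq p3 p5)))), ?_⟩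
  rw [St2]
  simp

private lemma prog_inv (O : Set Str) (x : Str) (t : ℕ) (s' : Store)
    (h : Run O prog (St x [] [] []) t s') (h2 : s' 2 ≠ []) : ∃ y, tstr x y ∈ O := by
  cases h with
  | seq a1 a2 =>
    cases a1 with
    | push =>
      rw [up4, St4] at a2
      cases a2 with
      | seq a3 a4 =>
        obtain ⟨y, rfl⟩ := guess_inv O _ _ _ _ _ a3
        cases a4 with
        | seq a5 a6 =>
          cases a5 with
          | push =>
            rw [up3, St3] at a6
            cases a6 with
            | seq a7 a8 =>
              have := enc_inv O _ _ _ _ _ _ a7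
              subst this
              cases a8 with
              | seq a9 a10 =>
                cases a9 with
                | push =>
                  rw [up3, St3] at a10
                  cases a10 with
                  | query_yes hq _ =>
                    rw [St3] at hq
                    exact ⟨y, hq⟩
                  | query_no hq a11 =>
                    cases a11 with
                    | skip => exact absurd (St2 _ _ _ _) h2

/-- Program: push `true` on stack 4; `loop 4` (choose: either empty stack 4 (`pop 4`), or push a
guessed bit on stack 3); then stack 3 holds an arbitrary string `y`; push `false` on stack 3;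
`loop 0 (pop 0 skip (seq (push 3 false) (push 3 true)) (seq (push 3 true) (push 3 true)))`, which
makes `penc x (false :: y)` on stack 3 (note `penc (b :: x) w = penc x (true :: b :: w)`); push
`false` on stack 3; now stack 3 holds `tstr x y`; `query 3 (push 2 true) skip`.
Both directions are needed: for `y` with `tstr x y ∈ O` there is a run of at most
`5 * |y| + 10 * |x| + 20` steps (or so), which is at most `2^(k*n+k)`; and each accepting run
queries `tstr x y` for some `y` (characterise all runs of the loops). -/
theorem testSet_mem_NE (O : Set Str) (h : ∀ x y, tstr x y ∈ O → y.length ≤ 2 ^ x.length) :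
    testSet O ∈ NE O := by
  refine ⟨5, prog, fun x => ⟨?_, ?_⟩⟩
  · rintro ⟨y, hy⟩
    obtain ⟨t, ht, s', hr, h2⟩ := prog_run O x y hy
    refine ⟨t, ?_, s', ?_, h2⟩
    · have h1 := h x y hy
      have h3 : x.length < 2 ^ x.length := Nat.lt_two_pow_self
      have h4 : (2 : ℕ) ^ (5 * x.length + 5) = 32 * (2 ^ x.length) ^ 5 := by
        rw [pow_add, ← pow_mul]; ring
      have h5 : (2 : ℕ) ^ x.length ≤ (2 ^ x.length) ^ 5 := Nat.le_self_pow (by norm_num) _
      have h6 : 1 ≤ 2 ^ x.length := Nat.one_le_two_pow
      show t ≤ 2 ^ (5 * x.length + 5)
      rw [h4]
      omega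
    · rw [start_eq]
      exact hr
  · rintro ⟨t, _, s', hr, h2⟩
    rw [start_eq] at hr
    exact prog_inv O x t s' hr h2

end Pool.Agent.Helper5.SX
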