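import Pool.Agent.Helper5.SX.Core
import Pool.Agent.Helper5.SX.Num
import Pool.Agent.Helper5.SX.Use
import Pool.Agent.Helper5.SX.TestNE
import Pool.Agent.Helper5.SX.CodeEXP

/-!
# Assembly
-/

namespace Pool.Agent.Helper5.SX

open Classical Filter

theorem useBd_acc (c : Cmd) (x a : Str) (T : ℕ) :
    UseBd (fun O => Acc O c x a T) T (x.length + a.length + T + 1) := by
  intro O hO
  obtain ⟨Q, h1, h2, h3⟩ := acc_use hO
  exact ⟨Q, h1, fun q hq => Nat.lt_succ_of_le (h2 q hq), h3⟩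

/-- The coded family. -/
def famA (f : ℕ → Cmd × ℕ) (i : ℕ) (x : Str) (O : Set Str) : Prop :=
  Acc O (f i).1 x [] (2 ^ (x.length ^ (f i).2 + (f i).2))

theorem tame_famA {f : ℕ → Cmd × ℕ} (hf : ∀ i, (f i).2 ≤ i) : Tame (famA f) := by
  intro i x
  have h1 := pow_add_lt_ee (hf i) x.length
  refine (useBd_acc (f i).1 x [] _).mono (Nat.pow_le_pow_right (by omega) h1.le) ?_
  have h2 : 2 ^ (x.length ^ (f i).2 + (f i).2) ≤ 2 ^ (ee i x.length) :=
    Nat.pow_le_pow_right (by omega) h1.le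
  have h3 : x.length < 2 ^ x.length := Nat.lt_two_pow_self
  have h4 : 2 ^ x.length ≤ 2 ^ (ee i x.length) :=
    Nat.pow_le_pow_right (by omega) (lt_ee i x.length).le
  rw [pow_succ]
  simp only [List.length_nil]
  omega

/-- A set of strings of length `m` with a given number of elements. -/
theorem exists_block (m g : ℕ) (hg : g ≤ 2 ^ m) :
    ∃ X : Finset Str, (∀ x ∈ X, x.length = m) ∧ X.card = g := by
  obtain ⟨X, hX, hc⟩ := Finset.exists_subset_card_eq (s := (finite_len m).toFinset) (n := g)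
    (by rw [card_len]; exact hg)
  refine ⟨X, fun x hx => ?_, hc⟩
  have := hX hx
  rw [Set.Finite.mem_toFinset] at this
  exact this

/-- The census of the test set. -/
theorem census_test {A : ℕ → Str → Set Str → Prop} {cap : ℕ → ℕ → ℕ} (hA : Tame A)
    {W : Set (Str × Str)} {n : ℕ → ℕ} (hinj : Function.Injective n) {X : ℕ → Finset Str}
    (hX : ∀ s, ∀ x ∈ X s, x.length = n s)
    (hW : ∀ p ∈ W, ∃ s, p.1 ∈ X s ∧ p.2.length = 2 ^ (n s)) {g : ℕ → ℕ}
    (hg : ∀ s, (X s).card = g (n s)) (m : ℕ) :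
    census (testSet (orc A cap W)) m ≤ g m := by
  have hT : ∀ x ∈ testSet (orc A cap W), ∃ s, x ∈ X s := by
    rintro x ⟨y, hy⟩
    rw [tstr_mem_orc hA] at hy
    obtain ⟨s, h1, -⟩ := hW _ hy
    exact ⟨s, h1⟩
  unfold census
  by_cases h : ∃ s, n s = m
  · obtain ⟨s, rfl⟩ := h
    rw [← hg s, ← Set.ncard_coe_finset]
    apply Set.ncard_le_ncard _ (Finset.finite_toSet _)
    rintro x ⟨h1, h2⟩
    obtain ⟨r, hr⟩ := hT x h1
    have h3 := hX r x hr
    rw [h2] at h3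
    rw [Finset.mem_coe, hinj h3]
    exact hr
  · have : {x | x ∈ testSet (orc A cap W) ∧ x.length = m} = ∅ := by
      ext x
      simp only [Set.mem_setOf_eq, Set.mem_empty_iff_false, iff_false]
      rintro ⟨h1, h2⟩
      obtain ⟨r, hr⟩ := hT x h1
      exact h ⟨r, (hX r x hr).symm.trans h2⟩
    rw [this, Set.ncard_empty]
    exact Nat.zero_le _

/-- The common part of the two theorems. -/
theorem main_common {f : ℕ → Cmd × ℕ} (hf : ∀ i, (f i).2 ≤ i)
    (hf' : ∀ (c : Cmd) (k N : ℕ), ∃ i, N ≤ i ∧ f i = (c, k)) (cap : ℕ → ℕ → ℕ)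
    {g : ℕ → ℕ} (hg : ∀ n, g n ≤ 2 ^ n)
    -- for the exponent `k`: which advice strings are beaten at length `n`
    (adv : ℕ → ℕ → Finset Str) (M : ℕ → ℕ → ℕ) (P : ℕ → ℕ → Prop)
    (hfreq : ∀ k N : ℕ, ∃ n ≥ N, P k n ∧ 1 ≤ n ∧
      (∀ a ∈ adv k n, a.length ≤ n) ∧
      ∑ p ∈ Rl (n ^ (2 ^ (k + 1))), cap p.1 p.2 ≤ M k n ∧
      (M k n + 1) ^ (k + 1) * (adv k n).card ≤ g n ∧
      2 * n + 2 ^ (n ^ k + k) < 2 ^ (n ^ (2 ^ (k + 1))) ∧
      M k n * 2 ^ (n ^ (2 ^ (k + 1))) + (2 ^ n + 1) * 2 ^ (n ^ k + k) < 2 ^ (2 ^ n) ∧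
      (adv k n).card ≤ 2 ^ n) :
    ∃ W : Set (Str × Str),
      testSet (orc (famA f) cap W) ∈ NE (orc (famA f) cap W) ∧
      (∀ n, census (testSet (orc (famA f) cap W)) n ≤ g n) ∧
      ∀ (c : Cmd) (k N : ℕ), ∃ n ≥ N, P k n ∧ ∀ a ∈ adv k n, ∃ x : Str,
        x.length = n ∧ (x ∈ testSet (orc (famA f) cap W) ↔
          Acc (orc (famA f) cap W) c x a (2 ^ (x.length ^ k + k))) := by
  have hA := tame_famA hf
  set p : ℕ → ℕ := fun s => s.unpair.1 with hp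
  obtain ⟨n, hn1, hn2, hn3, hn4⟩ := exists_sched p
    (fun t n => P (f t).2 n ∧ 1 ≤ n ∧
      (∀ a ∈ adv (f t).2 n, a.length ≤ n) ∧
      ∑ p ∈ Rl (n ^ (2 ^ ((f t).2 + 1))), cap p.1 p.2 ≤ M (f t).2 n ∧
      (M (f t).2 n + 1) ^ ((f t).2 + 1) * (adv (f t).2 n).card ≤ g n ∧
      2 * n + 2 ^ (n ^ (f t).2 + (f t).2) < 2 ^ (n ^ (2 ^ ((f t).2 + 1))) ∧
      M (f t).2 n * 2 ^ (n ^ (2 ^ ((f t).2 + 1))) + (2 ^ n + 1) * 2 ^ (n ^ (f t).2 + (f t).2) <
        2 ^ (2 ^ n) ∧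
      (adv (f t).2 n).card ≤ 2 ^ n)
    (fun s n => n ^ (2 ^ ((f (p s)).2 + 1))) (fun t N => hfreq _ N)
  choose Xb hXb1 hXb2 using fun m => exists_block m (g m) (hg m)
  obtain ⟨W, hW1, hW2⟩ := global (cap := cap) hA n (fun s => (f (p s)).2 + 1)
    (fun s => M (f (p s)).2 (n s)) (fun s => 2 ^ ((n s) ^ (f (p s)).2 + (f (p s)).2))
    (fun s => Xb (n s)) (fun s => adv (f (p s)).2 (n s))
    (fun s a x O => Acc O (f (p s)).1 x a (2 ^ (x.length ^ (f (p s)).2 + (f (p s)).2)))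
    (fun s => (hn1 s).2.1) hn2 hn3 (fun s x hx => hXb1 _ x hx)
    (by
      intro s a ha x hx
      obtain ⟨-, h1, h2, h3, h4, h5, h6, h7⟩ := hn1 s
      have hx1 := hXb1 _ x hx
      have ha1 := h2 a ha
      simp only [hx1]
      refine (useBd_acc _ x a _).mono le_rfl ?_
      rw [hx1]
      omega)
    (fun s => (hn1 s).2.2.2.1)
    (by
      intro s
      rw [hXb2]
      exact (hn1 s).2.2.2.2.1)
    (by
      intro s
      obtain ⟨-, h1, h2, h3, h4, h5, h6, h7⟩ := hn1 s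
      refine lt_of_le_of_lt ?_ h6
      apply Nat.add_le_add_left
      exact Nat.mul_le_mul_right _ (by omega))
  have hmono : StrictMono n := strictMono_nat_of_lt_succ hn3
  refine ⟨W, ?_, ?_, ?_⟩
  · apply testSet_mem_NE
    intro x y hxy
    rw [tstr_mem_orc hA] at hxy
    obtain ⟨s, h1, h2⟩ := hW1 _ hxy
    simp only at h1 h2
    rw [h2, hXb1 _ x h1]
  · exact census_test hA hmono.injective (fun s x hx => hXb1 _ x hx) hW1 (fun s => hXb2 _)
  · intro c k N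
    obtain ⟨t, -, ht⟩ := hf' c k 0
    set s := Nat.pair t N with hs
    have hps : p s = t := by simp [hp, hs]
    have hPk := (hn1 s).1
    have hk : (f (p s)).2 = k := by rw [hps, ht]
    have hc : (f (p s)).1 = c := by rw [hps, ht]
    rw [hk] at hPk
    refine ⟨n s, ?_, ?_, ?_⟩
    · have h8 := hn4 s
      have h9 : N ≤ s := Nat.right_le_pair t N
      omega
    · exact hPk
    · intro a ha
      obtain ⟨x, hx, hx2⟩ := hW2 s a (by rw [hk]; exact ha)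
      rw [hk, hc] at hx2
      exact ⟨x, hXb1 _ x hx, hx2⟩

/-- Relative to the coding oracle every sparse set of `NEXP` is in `EXP`. -/
theorem sparse_mem_EXP {f : ℕ → Cmd × ℕ} (hf : ∀ i, (f i).2 ≤ i)
    (hf' : ∀ (c : Cmd) (k N : ℕ), ∃ i, N ≤ i ∧ f i = (c, k)) (W : Set (Str × Str))
    (T : Set Str) (hT : T ∈ NEXP (orc (famA f) ee W)) (hs : Sparse T) :
    T ∈ EXP (orc (famA f) ee W) := by
  have hA := tame_famA hf
  obtain ⟨k, c, hc⟩ := hT
  obtain ⟨k', hk'⟩ := hs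
  obtain ⟨i, hi, hfi⟩ := hf' c k k'
  have hfam : ∀ x, famA f i x (orc (famA f) ee W) ↔ x ∈ T := by
    intro x
    unfold famA
    rw [hfi]
    exact (hc x).symm
  have hlive : ∀ m, live (famA f) ee i m (orc (famA f) ee W) := by
    intro m m' _
    have h1 : cnt (famA f) i m' (orc (famA f) ee W) = census T m' := by
      unfold cnt census
      congr 1
      ext x
      simp only [Set.mem_setOf_eq]
      rw [hfam x]
      tauto
    rw [h1]
    exact (hk' m').trans_lt (pow_add_lt_ee hi m')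
  have hcode : T = codeSet (orc (famA f) ee W) i := by
    ext x
    unfold codeSet
    rw [Set.mem_setOf_eq, cstr_mem_orc hA, hfam]
    exact ⟨fun h => ⟨hlive _, h⟩, fun h => h.2⟩
  rw [hcode]
  exact codeSet_mem_EXP _ _

theorem NEXP_subset_adv (O : Set Str) : NEXP O ⊆ NEXPAdv O (fun _ => 0) := by
  rintro A ⟨k, c, hc⟩
  exact ⟨c, k, fun _ => [], fun _ => by simp, hc⟩

theorem threshold (g : ℕ → ℕ) (hg : ∀ n, g n ≤ 2 ^ n) (hg' : ∀ k, ∃ n, n ^ k + k < g n) :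
    ∃ O : Set Str, (∀ A ∈ NEXP O, Sparse A → A ∈ EXP O) ∧
      ∃ T ∈ NE O, (∀ n, census T n ≤ g n) ∧
        ∀ α : ℕ → ℕ, (∀ k : ℕ, ∀ᶠ n in atTop, n ^ k ≤ g n → 2 ^ α n * n ^ k ≤ g n) →
          Tᶜ ∉ NEXPAdv O α := by
  obtain ⟨f, hf, hf'⟩ := exists_enum
  choose K hK using exists_exponent
  choose Na hNa using exists_threshold_a
  choose Nb hNb using exists_threshold_b
  have hg'' : ∀ k N, ∃ n ≥ N, n ^ k ≤ g n := by
    intro k N
    obtain ⟨n, hn⟩ := hg' (k + ∑ m ∈ Finset.range N, g m)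
    refine ⟨n, ?_, ?_⟩
    · by_contra hlt
      have h1 : g n ≤ ∑ m ∈ Finset.range N, g m :=
        Finset.single_le_sum (f := g) (fun _ _ => Nat.zero_le _) (Finset.mem_range.2 (by omega))
      omega
    · rcases Nat.eq_zero_or_pos n with rfl | hpos
      · rcases Nat.eq_zero_or_pos k with rfl | hk
        · simp only [pow_zero]
          exact Nat.lt_of_le_of_lt (Nat.zero_le _) hn
        · rw [zero_pow (by omega)]
          exact Nat.zero_le _
      · have h1 : n ^ k ≤ n ^ (k + ∑ m ∈ Finset.range N, g m) :=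
          Nat.pow_le_pow_right hpos (by omega)
        omega
  have hadv : ∀ m g : ℕ, ∃ S : Finset Str, (1 ≤ m → m ≤ g →
      (∀ a : Str, a ∈ S ↔ 2 ^ a.length * m ≤ g) ∧ S.card * m ≤ 2 * g) := by
    intro m g
    by_cases h : 1 ≤ m ∧ m ≤ g
    · obtain ⟨S, hS⟩ := exists_advice m g h.1 h.2
      exact ⟨S, fun _ _ => hS⟩
    · exact ⟨∅, fun h1 h2 => absurd ⟨h1, h2⟩ h⟩
  choose Sa hSa using hadv
  obtain ⟨W, hW1, hW2, hW3⟩ := main_common hf hf' ee hg (fun k n => Sa (n ^ (K k)) (g n))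
    (fun k n => (n ^ (2 ^ (k + 1))) ^ 3) (fun k n => 1 ≤ n ∧ n ^ (K k) ≤ g n) (by
      intro k N
      obtain ⟨n, hn, hng⟩ := hg'' (K k) (N + 2 + Na k + Nb k)
      have hn2 : 2 ≤ n := by omega
      have hpos : 1 ≤ n ^ (K k) := Nat.one_le_pow _ _ (by omega)
      obtain ⟨hS1, hS2⟩ := hSa (n ^ (K k)) (g n) hpos hng
      have hcard : ((n ^ (2 ^ (k + 1))) ^ 3 + 1) ^ (k + 1) * (Sa (n ^ (K k)) (g n)).card
          ≤ g n := by
        have h1 := hK k n hn2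
        have h2 : ((n ^ (2 ^ (k + 1))) ^ 3 + 1) ^ (k + 1) * (Sa (n ^ (K k)) (g n)).card *
            n ^ (K k) ≤ g n * n ^ (K k) := by
          calc _ = ((n ^ (2 ^ (k + 1))) ^ 3 + 1) ^ (k + 1) *
                ((Sa (n ^ (K k)) (g n)).card * n ^ (K k)) := by ring
            _ ≤ ((n ^ (2 ^ (k + 1))) ^ 3 + 1) ^ (k + 1) * (2 * g n) := Nat.mul_le_mul_left _ hS2
            _ = (((n ^ (2 ^ (k + 1))) ^ 3 + 1) ^ (k + 1) * 2) * g n := by ring
            _ ≤ n ^ (K k) * g n := Nat.mul_le_mul_right _ h1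
            _ = _ := mul_comm _ _
        exact Nat.le_of_mul_le_mul_right h2 hpos
      refine ⟨n, by omega, ⟨by omega, hng⟩, by omega, ?_, sum_ee_le _, hcard, hNa k n (by omega),
        hNb k n (by omega), ?_⟩
      · intro a ha
        have h1 := (hS1 a).1 ha
        have h2 : 2 ^ a.length ≤ 2 ^ n :=
          (Nat.le_mul_of_pos_right _ hpos).trans (h1.trans (hg n))
        exact (Nat.pow_le_pow_iff_right (by omega)).1 h2
      · refine le_trans ?_ (hcard.trans (hg n))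
        exact Nat.le_mul_of_pos_left _ (Nat.pow_pos (Nat.succ_pos _)))
  refine ⟨orc (famA f) ee W, fun T hT hs => sparse_mem_EXP hf hf' W T hT hs, _, hW1, hW2, ?_⟩
  rintro α hα ⟨c, k, a, ha, hc⟩
  obtain ⟨N, hN⟩ := Filter.eventually_atTop.1 (hα (K k))
  obtain ⟨n, hn, ⟨hn1, hng⟩, h⟩ := hW3 c k N
  have hpos : 1 ≤ n ^ (K k) := Nat.one_le_pow _ _ hn1
  obtain ⟨hS1, -⟩ := hSa (n ^ (K k)) (g n) hpos hng
  have hmem : a n ∈ Sa (n ^ (K k)) (g n) := by
    rw [hS1]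
    refine le_trans ?_ (hN n hn hng)
    exact Nat.mul_le_mul_right _ (Nat.pow_le_pow_right (by omega) (ha n))
  obtain ⟨x, hx, hx2⟩ := h (a n) hmem
  have h3 := hc x
  rw [hx] at h3 hx2
  rw [← h3] at hx2
  simp only [Set.mem_compl_iff] at hx2
  tauto

theorem census_advice (g : ℕ → ℕ) (hg : ∀ n, g n ≤ 2 ^ n) (hg' : ∃ᶠ n in atTop, 1 ≤ g n) :
    ∃ O : Set Str, ∃ T ∈ NE O, (∀ n, census T n ≤ g n) ∧
      ∀ α : ℕ → ℕ, (∀ᶠ n in atTop, 1 ≤ g n → 2 ^ (α n + 1) ≤ g n + 1) → Tᶜ ∉ NEXPAdv O α := by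
  obtain ⟨f, hf, hf'⟩ := exists_enum
  choose Na hNa using exists_threshold_a
  choose Nb hNb using exists_threshold_b
  have hadv : ∀ g : ℕ, ∃ S : Finset Str, (1 ≤ g →
      (∀ a : Str, a ∈ S ↔ 2 ^ (a.length + 1) ≤ g + 1) ∧ S.card ≤ g) := by
    intro g
    by_cases h : 1 ≤ g
    · obtain ⟨S, hS⟩ := exists_advice' g h
      exact ⟨S, fun _ => hS⟩
    · exact ⟨∅, fun h1 => absurd h1 h⟩
  choose Sa hSa using hadv
  obtain ⟨W, hW1, hW2, hW3⟩ := main_common hf hf' (fun _ _ => 0) hg (fun k n => Sa (g n))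
    (fun k n => 0) (fun k n => 1 ≤ g n) (by
      intro k N
      obtain ⟨n, hn, hng⟩ := Filter.frequently_atTop.1 hg' (N + 2 + Na k + Nb k)
      obtain ⟨hS1, hS2⟩ := hSa (g n) hng
      have hnb := hNb k n (by omega)
      refine ⟨n, by omega, hng, by omega, ?_, by simp, by simpa using hS2, hNa k n (by omega),
        ?_, hS2.trans (hg n)⟩
      · intro a ha
        have h1 := (hS1 a).1 ha
        have h2 := hg n
        have h3 : 2 ^ a.length ≤ 2 ^ n := by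
          rw [pow_succ] at h1
          have : 1 ≤ 2 ^ a.length := Nat.one_le_two_pow
          omega
        exact (Nat.pow_le_pow_iff_right (by omega)).1 h3
      · rw [zero_mul, zero_add]
        exact lt_of_le_of_lt (Nat.le_add_left _ _) hnb)
  refine ⟨orc (famA f) (fun _ _ => 0) W, _, hW1, hW2, ?_⟩
  rintro α hα ⟨c, k, a, ha, hc⟩
  obtain ⟨N, hN⟩ := Filter.eventually_atTop.1 hα
  obtain ⟨n, hn, hng, h⟩ := hW3 c k N
  obtain ⟨hS1, -⟩ := hSa (g n) hng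
  have hmem : a n ∈ Sa (g n) := by
    rw [hS1]
    refine le_trans ?_ (hN n hn hng)
    exact Nat.pow_le_pow_right (by omega) (Nat.succ_le_succ (ha n))
  obtain ⟨x, hx, hx2⟩ := h (a n) hmem
  have h3 := hc x
  rw [hx] at h3 hx2
  rw [← h3] at hx2
  simp only [Set.mem_compl_iff] at hx2
  tauto

end Pool.Agent.Helper5.SX
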