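import Mathlib

/-!
# Nondeterministic oracle programs over bit stacks, and relativised exponential time

A program works on stacks `0, 1, 2, …` of bits (it can only touch the finitely many stacks that
its text names), can guess, and can ask whether the content of a stack lies in the oracle.
`Run O c s t s'` says that `c` started on the stacks `s` can halt after `t` steps with `s'`.
-/

namespace Pool.Agent.Helper5.SX

/-- Strings over `{0,1}`. -/
abbrev Str := List Bool

/-- Programs over bit stacks. -/
inductive Cmd : Type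
  | skip : Cmd
  | push : ℕ → Bool → Cmd
  | seq : Cmd → Cmd → Cmd
  | pop : ℕ → Cmd → Cmd → Cmd → Cmd
  | loop : ℕ → Cmd → Cmd
  | query : ℕ → Cmd → Cmd → Cmd
  | choose : Cmd → Cmd → Cmd

/-- The contents of the stacks (the head of the list is the top). -/
abbrev Store := ℕ → Str

/-- `Run O c s t s'`: with the oracle `O`, the program `c` started on `s` can halt after exactly
`t` steps with the stacks `s'`.  `pop r c₀ c₁ c₂` removes the top of stack `r` and goes on with
`c₁` if it was `false`, with `c₂` if it was `true`, and with `c₀` if the stack was empty;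
`loop r c` repeats `c` as long as stack `r` is not empty; `query r c d` goes on with `c` if the
content of stack `r` lies in the oracle and with `d` otherwise; `choose c d` goes on with `c` or
with `d`, as it likes. -/
inductive Run (O : Set Str) : Cmd → Store → ℕ → Store → Prop
  | skip (s : Store) : Run O Cmd.skip s 1 s
  | push (r : ℕ) (b : Bool) (s : Store) :
      Run O (Cmd.push r b) s 1 (Function.update s r (b :: s r))
  | seq {c d : Cmd} {s s' s'' : Store} {t t' : ℕ} :
      Run O c s t s' → Run O d s' t' s'' → Run O (Cmd.seq c d) s (t + t') s''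
  | pop_nil {r : ℕ} {c₀ c₁ c₂ : Cmd} {s s' : Store} {t : ℕ} :
      s r = [] → Run O c₀ s t s' → Run O (Cmd.pop r c₀ c₁ c₂) s (t + 1) s'
  | pop_false {r : ℕ} {c₀ c₁ c₂ : Cmd} {s s' : Store} {t : ℕ} {w : Str} :
      s r = false :: w → Run O c₁ (Function.update s r w) t s' →
        Run O (Cmd.pop r c₀ c₁ c₂) s (t + 1) s'
  | pop_true {r : ℕ} {c₀ c₁ c₂ : Cmd} {s s' : Store} {t : ℕ} {w : Str} :
      s r = true :: w → Run O c₂ (Function.update s r w) t s' →
        Run O (Cmd.pop r c₀ c₁ c₂) s (t + 1) s'
  | loop_nil {r : ℕ} {c : Cmd} {s : Store} : s r = [] → Run O (Cmd.loop r c) s 1 s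
  | loop_cons {r : ℕ} {c : Cmd} {s s' s'' : Store} {t t' : ℕ} :
      s r ≠ [] → Run O c s t s' → Run O (Cmd.loop r c) s' t' s'' →
        Run O (Cmd.loop r c) s (t + t' + 1) s''
  | query_yes {r : ℕ} {c d : Cmd} {s s' : Store} {t : ℕ} :
      s r ∈ O → Run O c s t s' → Run O (Cmd.query r c d) s (t + 1) s'
  | query_no {r : ℕ} {c d : Cmd} {s s' : Store} {t : ℕ} :
      s r ∉ O → Run O d s t s' → Run O (Cmd.query r c d) s (t + 1) s'
  | choose_left {c d : Cmd} {s s' : Store} {t : ℕ} :
      Run O c s t s' → Run O (Cmd.choose c d) s (t + 1) s'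
  | choose_right {c d : Cmd} {s s' : Store} {t : ℕ} :
      Run O d s t s' → Run O (Cmd.choose c d) s (t + 1) s'

/-- The deterministic programs: those that never guess. -/
def Cmd.Det : Cmd → Prop
  | Cmd.skip => True
  | Cmd.push _ _ => True
  | Cmd.seq c d => c.Det ∧ d.Det
  | Cmd.pop _ c₀ c₁ c₂ => c₀.Det ∧ c₁.Det ∧ c₂.Det
  | Cmd.loop _ c => c.Det
  | Cmd.query _ c d => c.Det ∧ d.Det
  | Cmd.choose _ _ => False

/-- The start: the input `x` is on stack `0`, the advice `a` on stack `1`, the rest is empty. -/
def start (x a : Str) : Store := fun r => if r = 0 then x else if r = 1 then a else []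

/-- `c` with oracle `O` and advice `a` can accept `x` within `T` steps: some run halts after at
most `T` steps with stack `2` not empty. -/
def Acc (O : Set Str) (c : Cmd) (x a : Str) (T : ℕ) : Prop :=
  ∃ t ≤ T, ∃ s' : Store, Run O c (start x a) t s' ∧ s' 2 ≠ []

/-- `NTIME^O(T(n))`. -/
def NTIME (O : Set Str) (T : ℕ → ℕ) : Set (Set Str) :=
  {A | ∃ c : Cmd, ∀ x : Str, x ∈ A ↔ Acc O c x [] (T x.length)}

/-- `NE^O`, the union of the classes `NTIME^O(2^(kn+k))`. -/
def NE (O : Set Str) : Set (Set Str) := {A | ∃ k : ℕ, A ∈ NTIME O (fun n => 2 ^ (k * n + k))}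

/-- `NEXP^O`, the union of the classes `NTIME^O(2^(n^k+k))`. -/
def NEXP (O : Set Str) : Set (Set Str) := {A | ∃ k : ℕ, A ∈ NTIME O (fun n => 2 ^ (n ^ k + k))}

/-- `NEXP^O` with advice of length at most `α n` at the inputs of length `n`. -/
def NEXPAdv (O : Set Str) (α : ℕ → ℕ) : Set (Set Str) :=
  {A | ∃ c : Cmd, ∃ k : ℕ, ∃ a : ℕ → Str, (∀ n, (a n).length ≤ α n) ∧
    ∀ x : Str, x ∈ A ↔ Acc O c x (a x.length) (2 ^ (x.length ^ k + k))}

/-- `EXP^O`: decided by a deterministic program that halts within `2^(n^k+k)` steps. -/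
def EXP (O : Set Str) : Set (Set Str) :=
  {A | ∃ c : Cmd, c.Det ∧ ∃ k : ℕ, ∀ x : Str, ∃ t ≤ 2 ^ (x.length ^ k + k), ∃ s' : Store,
    Run O c (start x []) t s' ∧ (s' 2 ≠ [] ↔ x ∈ A)}

/-- The number of strings of length `n` in `A`. -/
noncomputable def census (A : Set Str) (n : ℕ) : ℕ := {x | x ∈ A ∧ x.length = n}.ncard

/-- `A` is sparse: its census is bounded by a polynomial. -/
def Sparse (A : Set Str) : Prop := ∃ k : ℕ, ∀ n, census A n ≤ n ^ k + k

/-- The code of `x` in front of `w`. -/
def penc : Str → Str → Str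
  | [], w => w
  | b :: x, w => penc x (true :: b :: w)

/-- The string that pairs `x` with `y`. -/
def tstr (x y : Str) : Str := false :: penc x (false :: y)

/-- The test set of the oracle `O`. -/
def testSet (O : Set Str) : Set Str := {x | ∃ y, tstr x y ∈ O}

/-- The exponent of the running time allowed to the program with index `i` at length `m`. -/
def ee (i m : ℕ) : ℕ := (m + 2) ^ (i + 1)

/-- The address that codes whether `x` is accepted by the program with index `i`. -/
def cstr (i : ℕ) (x : Str) : Str :=
  List.replicate (i + 1) true ++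
    false :: penc x (false :: List.replicate (2 ^ ((x.length + 2) ^ (2 * (i + 1)))) true)

/-- The set that the oracle `O` codes at the addresses with index `i`. -/
def codeSet (O : Set Str) (i : ℕ) : Set Str := {x | cstr i x ∈ O}

end Pool.Agent.Helper5.SX
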