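import Pool.Agent.Helper5.SX.Codes

/-!
# The coding oracle of a set of pairs
-/

namespace Pool.Agent.Helper5.SX

open Classical

/-- The property `P` of oracles is certified by at most `b` strings of length less than `L`. -/
def UseBd (P : Set Str → Prop) (b L : ℕ) : Prop :=
  ∀ O, P O → ∃ Q : Finset Str, Q.card ≤ b ∧ (∀ q ∈ Q, q.length < L) ∧
    ∀ O' : Set Str, (∀ q ∈ Q, (q ∈ O' ↔ q ∈ O)) → P O'

theorem UseBd.mono {P : Set Str → Prop} {b L b' L' : ℕ} (h : UseBd P b L) (hb : b ≤ b')
    (hL : L ≤ L') : UseBd P b' L' := by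
  intro O hO
  obtain ⟨Q, h1, h2, h3⟩ := h O hO
  exact ⟨Q, h1.trans hb, fun q hq => (h2 q hq).trans_le hL, h3⟩

theorem UseBd.congr {P : Set Str → Prop} {b L : ℕ} (h : UseBd P b L) {O O' : Set Str}
    (hO : ∀ q : Str, q.length < L → (q ∈ O' ↔ q ∈ O)) : P O ↔ P O' := by
  constructor
  · intro hP
    obtain ⟨Q, _, h2, h3⟩ := h O hP
    exact h3 O' fun q hq => hO q (h2 q hq)
  · intro hP
    obtain ⟨Q, _, h2, h3⟩ := h O' hP
    exact h3 O fun q hq => (hO q (h2 q hq)).symm

theorem finite_len (m : ℕ) : {x : Str | x.length = m}.Finite := List.finite_length_eq Bool m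

section
variable (A : ℕ → Str → Set Str → Prop) (cap : ℕ → ℕ → ℕ)

/-- The number of strings of length `m` with `A i x O`. -/
noncomputable def cnt (i m : ℕ) (O : Set Str) : ℕ := {x : Str | x.length = m ∧ A i x O}.ncard

/-- No census with index `i` has reached its cap up to length `m`. -/
def live (i m : ℕ) (O : Set Str) : Prop := ∀ m' ≤ m, cnt A i m' O < cap i m'

/-- One step of the definition of the oracle. -/
def stepG (W : Set (Str × Str)) (q : Str) (R : Set Str) : Prop :=
  (∃ x y, q = tstr x y ∧ (x, y) ∈ W) ∨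
    ∃ i x, q = cstr i x ∧ live A cap i x.length R ∧ A i x R

/-- Membership in the coding oracle of `W`. -/
noncomputable def orcP (W : Set (Str × Str)) : Str → Prop :=
  WellFounded.fix (measure (List.length : Str → ℕ)).wf
    fun q rec => stepG A cap W q {q' | ∃ h : q'.length < q.length, rec q' h}

/-- The coding oracle of `W`. -/
def orc (W : Set (Str × Str)) : Set Str := {q | orcP A cap W q}

theorem orcP_eq (W : Set (Str × Str)) (q : Str) :
    orcP A cap W q ↔ stepG A cap W q {q' | q'.length < q.length ∧ q' ∈ orc A cap W} := by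
  unfold orcP
  rw [WellFounded.fix_eq]
  apply iff_of_eq
  congr 1
  ext q'
  simp only [Set.mem_setOf_eq, orc, orcP, exists_prop]

end

theorem two_le_ee (i m : ℕ) : 2 ≤ ee i m := by
  unfold ee
  calc 2 ≤ m + 2 := by omega
    _ = (m + 2) ^ 1 := (pow_one _).symm
    _ ≤ _ := Nat.pow_le_pow_right (by omega) (by omega)

theorem ee_mono (i : ℕ) {m m' : ℕ} (h : m ≤ m') : ee i m ≤ ee i m' :=
  Nat.pow_le_pow_left (by omega) _

theorem lt_ee (i m : ℕ) : m < ee i m := by
  unfold ee
  calc m < m + 2 := by omega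
    _ = (m + 2) ^ 1 := (pow_one _).symm
    _ ≤ _ := Nat.pow_le_pow_right (by omega) (by omega)

theorem lt_ee' (i m : ℕ) : i < ee i m := by
  unfold ee
  calc i < 2 ^ i := Nat.lt_two_pow_self
    _ ≤ 2 ^ (i + 1) := Nat.pow_le_pow_right (by omega) (by omega)
    _ ≤ _ := Nat.pow_le_pow_left (by omega) _

theorem ee_sq (i m : ℕ) : (m + 2) ^ (2 * (i + 1)) = ee i m ^ 2 := by
  unfold ee
  rw [← pow_mul, mul_comm]

theorem ee_lt_cstr (i : ℕ) (x : Str) : 2 ^ (ee i x.length + 1) ≤ (cstr i x).length := by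
  rw [cstr_length, ee_sq]
  have h := two_le_ee i x.length
  have : 2 ^ (ee i x.length + 1) ≤ 2 ^ (ee i x.length ^ 2) :=
    Nat.pow_le_pow_right (by omega) (by nlinarith)
  omega

section
variable {A : ℕ → Str → Set Str → Prop} {cap : ℕ → ℕ → ℕ}

/-- The standing hypothesis on the coded family. -/
def Tame (A : ℕ → Str → Set Str → Prop) : Prop :=
  ∀ i x, UseBd (A i x) (2 ^ ee i x.length) (2 ^ (ee i x.length + 1))

theorem cnt_congr (hA : Tame A) {i m : ℕ} {O O' : Set Str}
    (hO : ∀ q : Str, q.length < 2 ^ (ee i m + 1) → (q ∈ O' ↔ q ∈ O)) :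
    cnt A i m O = cnt A i m O' := by
  unfold cnt
  congr 1
  ext x
  simp only [Set.mem_setOf_eq]
  constructor
  · rintro ⟨h1, h2⟩
    subst h1
    exact ⟨rfl, ((hA i x).congr hO).1 h2⟩
  · rintro ⟨h1, h2⟩
    subst h1
    exact ⟨rfl, ((hA i x).congr hO).2 h2⟩

theorem live_congr (hA : Tame A) {i m : ℕ} {O O' : Set Str}
    (hO : ∀ q : Str, q.length < 2 ^ (ee i m + 1) → (q ∈ O' ↔ q ∈ O)) :
    live A cap i m O ↔ live A cap i m O' := by
  have key : ∀ m' ≤ m, cnt A i m' O = cnt A i m' O' := by
    intro m' hm'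
    apply cnt_congr hA
    intro q hq
    apply hO q (hq.trans_le (Nat.pow_le_pow_right (by omega) _))
    have := ee_mono i hm'
    omega
  constructor
  · intro h m' hm'
    rw [← key m' hm']
    exact h m' hm'
  · intro h m' hm'
    rw [key m' hm']
    exact h m' hm'

/-- The equation of the coding oracle. -/
theorem mem_orc (hA : Tame A) (W : Set (Str × Str)) (q : Str) :
    q ∈ orc A cap W ↔ (∃ x y, q = tstr x y ∧ (x, y) ∈ W) ∨
      ∃ i x, q = cstr i x ∧ live A cap i x.length (orc A cap W) ∧ A i x (orc A cap W) := by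
  change orcP A cap W q ↔ _
  rw [orcP_eq]
  unfold stepG
  apply or_congr Iff.rfl
  apply exists_congr
  intro i
  apply exists_congr
  intro x
  apply and_congr_right
  rintro rfl
  have hO : ∀ q : Str, q.length < 2 ^ (ee i x.length + 1) →
      (q ∈ orc A cap W ↔ q ∈ {q' | q'.length < (cstr i x).length ∧ q' ∈ orc A cap W}) := by
    intro q hq
    have := ee_lt_cstr i x
    simp only [Set.mem_setOf_eq]
    constructor
    · intro h
      exact ⟨by omega, h⟩
    · intro h
      exact h.2
  apply and_congr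
  · exact live_congr hA hO
  · exact (hA i x).congr hO

/-- The oracle below length `L` depends only on the pairs with addresses below `L`. -/
theorem orc_local (hA : Tame A) {W W' : Set (Str × Str)} {L : ℕ}
    (h : ∀ x y, (tstr x y).length < L → ((x, y) ∈ W ↔ (x, y) ∈ W')) (q : Str)
    (hq : q.length < L) : q ∈ orc A cap W ↔ q ∈ orc A cap W' := by
  induction hn : q.length using Nat.strong_induction_on generalizing q with
  | _ n ih =>
    subst hn
    rw [mem_orc hA, mem_orc hA]
    apply or_congr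
    · constructor
      · rintro ⟨x, y, rfl, h2⟩
        exact ⟨x, y, rfl, (h x y hq).1 h2⟩
      · rintro ⟨x, y, rfl, h2⟩
        exact ⟨x, y, rfl, (h x y hq).2 h2⟩
    · apply exists_congr
      intro i
      apply exists_congr
      intro x
      apply and_congr_right
      rintro rfl
      have hO : ∀ q : Str, q.length < 2 ^ (ee i x.length + 1) →
          (q ∈ orc A cap W' ↔ q ∈ orc A cap W) := by
        intro q hq'
        have := ee_lt_cstr i x
        exact (ih q.length (by omega) q (by omega) rfl).symm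
      apply and_congr
      · exact live_congr hA hO
      · exact (hA i x).congr hO

theorem tstr_mem_orc (hA : Tame A) (W : Set (Str × Str)) (x y : Str) :
    tstr x y ∈ orc A cap W ↔ (x, y) ∈ W := by
  rw [mem_orc hA]
  constructor
  · rintro (⟨x', y', h, h2⟩ | ⟨i, x', h, -⟩)
    · obtain ⟨rfl, rfl⟩ := tstr_inj h
      exact h2
    · exact absurd h (tstr_ne_cstr _ _ _ _)
  · intro h
    exact Or.inl ⟨x, y, rfl, h⟩

theorem cstr_mem_orc (hA : Tame A) (W : Set (Str × Str)) (i : ℕ) (x : Str) :
    cstr i x ∈ orc A cap W ↔ live A cap i x.length (orc A cap W) ∧ A i x (orc A cap W) := by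
  rw [mem_orc hA]
  constructor
  · rintro (⟨x', y', h, h2⟩ | ⟨i', x', h, h2⟩)
    · exact absurd h.symm (tstr_ne_cstr _ _ _ _)
    · obtain ⟨rfl, rfl⟩ := cstr_inj h
      exact h2
  · intro h
    exact Or.inr ⟨i, x, rfl, h⟩

end

end Pool.Agent.Helper5.SX
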