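import Pool.Agent.Helper5.SX.Oracle

/-!
# One stage of the construction
-/

namespace Pool.Agent.Helper5.SX

open Classical

theorem card_len (m : ℕ) : (finite_len m).toFinset.card = 2 ^ m := by
  have h1 : Fintype.card (List.Vector Bool m) = 2 ^ m := by
    rw [card_vector]
    simp
  rw [← h1, ← Nat.card_eq_fintype_card, ← Set.ncard_eq_toFinset_card _ (finite_len m),
    ← Nat.card_coe_set_eq]
  rfl

/-- The pairs (index, length) with exponent below `l`. -/
def Rl (l : ℕ) : Finset (ℕ × ℕ) :=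
  ((Finset.range l) ×ˢ (Finset.range l)).filter (fun p => ee p.1 p.2 < l)

theorem mem_Rl {l : ℕ} {p : ℕ × ℕ} : p ∈ Rl l ↔ ee p.1 p.2 < l := by
  unfold Rl
  rw [Finset.mem_filter, Finset.mem_product, Finset.mem_range, Finset.mem_range]
  constructor
  · exact fun h => h.2
  · intro h
    exact ⟨⟨(lt_ee' _ _).trans h, (lt_ee _ _).trans h⟩, h⟩

theorem Rl_mono {l l' : ℕ} (h : l ≤ l') : Rl l ⊆ Rl l' := by
  intro p hp
  rw [mem_Rl] at hp ⊢
  omega

section
variable (A : ℕ → Str → Set Str → Prop) (cap : ℕ → ℕ → ℕ)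

/-- The sum of the capped censuses. -/
noncomputable def Phi (l : ℕ) (O : Set Str) : ℕ :=
  ∑ p ∈ Rl l, min (cnt A p.1 p.2 O) (cap p.1 p.2)

/-- The number with the digits `Phi (lam 0)`, `Phi (lam 1)`, … in base `M + 1`. -/
noncomputable def Psi (lam : ℕ → ℕ) (M : ℕ) (O : Set Str) : ℕ → ℕ
  | 0 => 0
  | l + 1 => Psi lam M O l * (M + 1) + Phi A cap (lam l) O

end

section
variable {A : ℕ → Str → Set Str → Prop} {cap : ℕ → ℕ → ℕ}

theorem Phi_le (l : ℕ) (O : Set Str) : Phi A cap l O ≤ ∑ p ∈ Rl l, cap p.1 p.2 :=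
  Finset.sum_le_sum fun _ _ => min_le_right _ _

theorem Psi_lt {lam : ℕ → ℕ} {M : ℕ} {O : Set Str} (D : ℕ)
    (hM : ∀ l < D, Phi A cap (lam l) O ≤ M) :
    ∀ l ≤ D, Psi A cap lam M O l + 1 ≤ (M + 1) ^ l := by
  intro l
  induction l with
  | zero => intro _; simp [Psi]
  | succ l ih =>
    intro hl
    have h1 := ih (by omega)
    have h2 := hM l (by omega)
    simp only [Psi]
    rw [pow_succ]
    calc Psi A cap lam M O l * (M + 1) + Phi A cap (lam l) O + 1
        ≤ Psi A cap lam M O l * (M + 1) + (M + 1) := by omega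
      _ = (Psi A cap lam M O l + 1) * (M + 1) := by ring
      _ ≤ (M + 1) ^ l * (M + 1) := Nat.mul_le_mul_right _ h1

theorem Psi_mono {lam : ℕ → ℕ} {M : ℕ} {O O' : Set Str} {D : ℕ}
    (hM : ∀ l < D, Phi A cap (lam l) O ≤ M) {l : ℕ} (hl : l ≤ D)
    (h : Psi A cap lam M O l < Psi A cap lam M O' l) :
    Psi A cap lam M O D < Psi A cap lam M O' D := by
  induction D, hl using Nat.le_induction with
  | base => exact h
  | succ D hD ih =>
    have h1 := ih (fun l hl => hM l (by omega))
    have h2 := hM D (by omega)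
    simp only [Psi]
    calc Psi A cap lam M O D * (M + 1) + Phi A cap (lam D) O
        < Psi A cap lam M O D * (M + 1) + (M + 1) := by omega
      _ = (Psi A cap lam M O D + 1) * (M + 1) := by ring
      _ ≤ Psi A cap lam M O' D * (M + 1) := Nat.mul_le_mul_right _ h1
      _ ≤ _ := Nat.le_add_right _ _

/-- The sets certified by protected runs. -/
theorem exists_part (i m : ℕ) (O : Set Str) (c : ℕ) :
    ∃ S : Finset Str, (∀ x ∈ S, x.length = m ∧ A i x O) ∧ S.card = min (cnt A i m O) c := by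
  have hfin : {x : Str | x.length = m ∧ A i x O}.Finite :=
    (finite_len m).subset fun x hx => hx.1
  obtain ⟨S, hS, hc⟩ := Finset.exists_subset_card_eq
    (s := hfin.toFinset) (n := min (cnt A i m O) c) (by
      unfold cnt
      rw [Set.ncard_eq_toFinset_card _ hfin]
      exact min_le_left _ _)
  refine ⟨S, fun x hx => ?_, hc⟩
  have := hS hx
  rw [Set.Finite.mem_toFinset] at this
  exact this

theorem cnt_ge {i m : ℕ} {O : Set Str} {S : Finset Str}
    (h : ∀ x ∈ S, x.length = m ∧ A i x O) : S.card ≤ cnt A i m O := by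
  have hfin : {x : Str | x.length = m ∧ A i x O}.Finite :=
    (finite_len m).subset fun x hx => hx.1
  unfold cnt
  rw [← Set.ncard_coe_finset S]
  exact Set.ncard_le_ncard (fun x hx => h x hx) hfin

theorem cnt_eq_mem {i m : ℕ} {O : Set Str} {S : Finset Str}
    (h : ∀ x ∈ S, x.length = m ∧ A i x O) (hc : cnt A i m O ≤ S.card) {x : Str}
    (hx : x.length = m) : A i x O ↔ x ∈ S := by
  have hfin : {x : Str | x.length = m ∧ A i x O}.Finite :=
    (finite_len m).subset fun x hx => hx.1
  have hs : (S : Set Str) ⊆ {x : Str | x.length = m ∧ A i x O} := fun x hx => h x hx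
  have he := Set.eq_of_subset_of_ncard_le hs (by rw [Set.ncard_coe_finset]; exact hc) hfin
  constructor
  · intro hA
    have : x ∈ {x : Str | x.length = m ∧ A i x O} := ⟨hx, hA⟩
    rw [← he] at this
    exact this
  · intro hA
    exact (h x hA).2

/-- The step of the induction over the levels: with the protected certificates intact and the
capped censuses unchanged, the two oracles agree on the next level. -/
theorem level_step (hA : Tame A) {W W' : Set (Str × Str)} {x₀ y₀ : Str} {l : ℕ}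
    (hW : ∀ x y, (x, y) ≠ (x₀, y₀) → ((x, y) ∈ W ↔ (x, y) ∈ W'))
    (S : ℕ → ℕ → Finset Str)
    (hS : ∀ i m, ∀ x ∈ S i m, x.length = m ∧ A i x (orc A cap W))
    (hSc : ∀ i m, (S i m).card = min (cnt A i m (orc A cap W)) (cap i m))
    (hS' : ∀ i m, ee i m < l → ∀ x ∈ S i m, A i x (orc A cap W'))
    (hmin : ∀ i m, ee i m < l →
      min (cnt A i m (orc A cap W')) (cap i m) = min (cnt A i m (orc A cap W)) (cap i m))
    (q : Str) (hq : q.length < 2 ^ (l ^ 2)) (hq0 : q ≠ tstr x₀ y₀) :
    q ∈ orc A cap W ↔ q ∈ orc A cap W' := by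
  rw [mem_orc hA, mem_orc hA]
  apply or_congr
  · apply exists_congr
    intro x
    apply exists_congr
    intro y
    apply and_congr_right
    rintro rfl
    apply hW
    intro h
    rw [Prod.mk.injEq] at h
    obtain ⟨rfl, rfl⟩ := h
    exact hq0 rfl
  · apply exists_congr
    intro i
    apply exists_congr
    intro x
    apply and_congr_right
    rintro rfl
    have hl : ee i x.length < l := by
      rw [cstr_length, ee_sq] at hq
      have h1 : 2 ^ ee i x.length ^ 2 < 2 ^ l ^ 2 := by omega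
      have h2 := (Nat.pow_lt_pow_iff_right (by omega : 1 < 2)).1 h1
      exact lt_of_pow_lt_pow_left₀ 2 (by omega) h2
    have hlive : live A cap i x.length (orc A cap W) ↔ live A cap i x.length (orc A cap W') := by
      unfold live
      apply forall_congr'
      intro m'
      apply imp_congr_right
      intro hm'
      have h1 := hmin i m' ((ee_mono i hm').trans_lt hl)
      omega
    constructor
    · rintro ⟨h1, h2⟩
      refine ⟨hlive.1 h1, ?_⟩
      have h3 := h1 x.length le_rfl
      have h4 := hSc i x.length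
      rw [min_eq_left h3.le] at h4
      exact hS' i _ hl x ((cnt_eq_mem (hS i x.length) h4.ge rfl).1 h2)
    · rintro ⟨h1, h2⟩
      refine ⟨hlive.2 h1, ?_⟩
      have h3 := h1 x.length le_rfl
      have h4 := hSc i x.length
      rw [← hmin i _ hl, min_eq_left h3.le] at h4
      have h5 : ∀ z ∈ S i x.length, z.length = x.length ∧ A i z (orc A cap W') :=
        fun z hz => ⟨(hS i _ z hz).1, hS' i _ hl z hz⟩
      exact (hS i _ x ((cnt_eq_mem h5 h4.ge rfl).1 h2)).2

/-- The stage lemma: at one length `n` all requirements `a ∈ S` can be met by one finite set of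
pairs whose first components lie in `X`. -/
theorem stage (hA : Tame A) (W₀ : Set (Str × Str)) {n D M b : ℕ} (hn : 1 ≤ n) (X : Finset Str)
    {ι : Type} (S : Finset ι) (B : ι → Str → Set Str → Prop)
    (hB : ∀ a ∈ S, ∀ x ∈ X, UseBd (B a x) b (2 ^ (n ^ (2 ^ D))))
    (hM : ∑ p ∈ Rl (n ^ (2 ^ D)), cap p.1 p.2 ≤ M)
    (hcard : (M + 1) ^ D * S.card ≤ X.card)
    (hb : M * 2 ^ (n ^ (2 ^ D)) + (S.card + 1) * b < 2 ^ (2 ^ n)) :
    ∃ V : Finset (Str × Str), (∀ p ∈ V, p.1 ∈ X ∧ p.2.length = 2 ^ n) ∧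
      ∀ a ∈ S, ∃ x ∈ X, (x ∈ V.image Prod.fst ↔ B a x (orc A cap (W₀ ∪ ↑V))) := by
  set lam : ℕ → ℕ := fun l => n ^ (2 ^ l) with hlam
  have hlamD : ∀ l ≤ D, lam l ≤ lam D := fun l hl =>
    Nat.pow_le_pow_right hn (Nat.pow_le_pow_right (by omega) hl)
  have hPhi : ∀ (O : Set Str), ∀ l < D, Phi A cap (lam l) O ≤ M := by
    intro O l hl
    refine (Phi_le _ _).trans ((Finset.sum_le_sum_of_subset (Rl_mono (hlamD l hl.le))).trans hM)
  set Y : Finset Str := (finite_len (2 ^ n)).toFinset with hY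
  have hYm : ∀ y, y ∈ Y ↔ y.length = 2 ^ n := by
    intro y
    rw [hY, Set.Finite.mem_toFinset]
    exact Iff.rfl
  have hYc : Y.card = 2 ^ (2 ^ n) := card_len _
  set Or : Finset (Str × Str) → Set Str := fun V => orc A cap (W₀ ∪ ↑V) with hOr
  -- positively refuted
  set PR : Finset (Str × Str) → Finset ι := fun V =>
    S.filter (fun a => ∃ x ∈ X, x ∈ V.image Prod.fst ∧ B a x (Or V)) with hPR
  set PS : Finset (Str × Str) → ℕ := fun V =>
    Psi A cap lam M (Or V) D * S.card + (PR V).card with hPS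
  by_contra hnone
  have hfail : ∀ V : Finset (Str × Str), (∀ p ∈ V, p.1 ∈ X ∧ p.2.length = 2 ^ n) →
      ∃ a ∈ S, ∀ x ∈ X, ¬ (x ∈ V.image Prod.fst ↔ B a x (Or V)) := by
    intro V hV
    by_contra hcon
    apply hnone
    refine ⟨V, hV, ?_⟩
    intro a ha
    by_contra h
    apply hcon
    refine ⟨a, ha, fun x hx hiff => h ⟨x, hx, hiff⟩⟩
  have hPRlt : ∀ V : Finset (Str × Str), (∀ p ∈ V, p.1 ∈ X ∧ p.2.length = 2 ^ n) →
      (PR V).card < S.card := by
    intro V hV
    obtain ⟨a, ha, h⟩ := hfail V hV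
    apply Finset.card_lt_card
    refine ⟨Finset.filter_subset _ _, fun hsub => ?_⟩
    obtain ⟨x, hx, h1, h2⟩ := (Finset.mem_filter.1 (hsub ha)).2
    exact h x hx ⟨fun _ => h2, fun _ => h1⟩
  have hPSlt : ∀ V : Finset (Str × Str), (∀ p ∈ V, p.1 ∈ X ∧ p.2.length = 2 ^ n) →
      PS V < X.card := by
    intro V hV
    have h1 := Psi_lt D (hPhi (Or V)) D le_rfl
    have h2 := hPRlt V hV
    calc PS V < Psi A cap lam M (Or V) D * S.card + S.card := by
          simp only [hPS]; omega
      _ = (Psi A cap lam M (Or V) D + 1) * S.card := by ring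
      _ ≤ (M + 1) ^ D * S.card := Nat.mul_le_mul_right _ h1
      _ ≤ _ := hcard
  set F : Finset (Finset (Str × Str)) := ((X ×ˢ Y).powerset).filter
    (fun V => (V.image Prod.fst).card ≤ PS V) with hF
  obtain ⟨V, hVF, hVmax⟩ := Finset.exists_max_image F PS ⟨∅, by simp [hF]⟩
  have hV := Finset.mem_filter.1 hVF
  have hVsub := Finset.mem_powerset.1 hV.1
  have hVX : ∀ p ∈ V, p.1 ∈ X ∧ p.2.length = 2 ^ n := by
    intro p hp
    have := Finset.mem_product.1 (hVsub hp)
    exact ⟨this.1, (hYm _).1 this.2⟩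
  obtain ⟨x₀, hx₀, hx₀V⟩ : ∃ x₀ ∈ X, x₀ ∉ V.image Prod.fst := by
    by_contra hcon
    push Not at hcon
    have : X.card ≤ (V.image Prod.fst).card := Finset.card_le_card hcon
    have := hPSlt V hVX
    omega
  obtain ⟨a, ha, hneg⟩ := hfail V hVX
  have ha0 : a ∉ PR V := by
    intro h
    obtain ⟨x, hx, h1, h2⟩ := (Finset.mem_filter.1 h).2
    exact hneg x hx ⟨fun _ => h2, fun _ => h1⟩
  have hax₀ : B a x₀ (Or V) := by
    by_contra h
    exact hneg x₀ hx₀ ⟨fun h1 => absurd h1 hx₀V, fun h1 => absurd h1 h⟩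
  -- certificates
  choose Sx hSx hSxc using fun i m => exists_part (A := A) i m (Or V) (cap i m)
  have hcert : ∀ i x, ∃ Q : Finset Str, Q.card ≤ 2 ^ ee i x.length ∧ (A i x (Or V) →
      (∀ q ∈ Q, q.length < 2 ^ (ee i x.length + 1)) ∧
      ∀ O' : Set Str, (∀ q ∈ Q, (q ∈ O' ↔ q ∈ Or V)) → A i x O') := by
    intro i x
    by_cases h : A i x (Or V)
    · obtain ⟨Q, h1, h2, h3⟩ := hA i x _ h
      exact ⟨Q, h1, fun _ => ⟨h2, h3⟩⟩
    · exact ⟨∅, by simp, fun h' => absurd h' h⟩
  choose Qa hQa1 hQa2 using hcert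
  have hcertB : ∀ (c : ι) (x : Str), ∃ Q : Finset Str, Q.card ≤ b ∧ (c ∈ S → x ∈ X →
      B c x (Or V) → (∀ q ∈ Q, q.length < 2 ^ (n ^ (2 ^ D))) ∧
      ∀ O' : Set Str, (∀ q ∈ Q, (q ∈ O' ↔ q ∈ Or V)) → B c x O') := by
    intro c x
    by_cases h : c ∈ S ∧ x ∈ X ∧ B c x (Or V)
    · obtain ⟨Q, h1, h2, h3⟩ := hB c h.1 x h.2.1 _ h.2.2
      exact ⟨Q, h1, fun _ _ _ => ⟨h2, h3⟩⟩
    · exact ⟨∅, by simp, fun h1 h2 h3 => absurd ⟨h1, h2, h3⟩ h⟩
  choose Qb hQb1 hQb2 using hcertB
  have hwit : ∀ c : ι, ∃ x : Str, c ∈ PR V → x ∈ X ∧ x ∈ V.image Prod.fst ∧ B c x (Or V) := by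
    intro c
    by_cases h : c ∈ PR V
    · obtain ⟨x, h1, h2, h3⟩ := (Finset.mem_filter.1 h).2
      exact ⟨x, fun _ => ⟨h1, h2, h3⟩⟩
    · exact ⟨[], fun h' => absurd h' h⟩
  choose xw hxw using hwit
  set Q1 : Finset Str := (Rl (lam D)).biUnion
    (fun p => (Sx p.1 p.2).biUnion (fun x => Qa p.1 x)) with hQ1
  set Q2 : Finset Str := S.biUnion (fun c => Qb c (xw c)) ∪ Qb a x₀ with hQ2
  have hQ1c : Q1.card ≤ M * 2 ^ (lam D) := by
    calc Q1.card ≤ ∑ p ∈ Rl (lam D), ((Sx p.1 p.2).biUnion (fun x => Qa p.1 x)).card :=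
          Finset.card_biUnion_le
      _ ≤ ∑ p ∈ Rl (lam D), cap p.1 p.2 * 2 ^ (lam D) := by
          apply Finset.sum_le_sum
          intro p hp
          calc ((Sx p.1 p.2).biUnion (fun x => Qa p.1 x)).card
              ≤ ∑ x ∈ Sx p.1 p.2, (Qa p.1 x).card := Finset.card_biUnion_le
            _ ≤ ∑ x ∈ Sx p.1 p.2, 2 ^ (lam D) := by
                apply Finset.sum_le_sum
                intro x hx
                refine (hQa1 _ _).trans (Nat.pow_le_pow_right (by omega) ?_)
                rw [(hSx _ _ x hx).1]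
                exact (mem_Rl.1 hp).le
            _ = (Sx p.1 p.2).card * 2 ^ (lam D) := by rw [Finset.sum_const, smul_eq_mul]
            _ ≤ cap p.1 p.2 * 2 ^ (lam D) := by
                apply Nat.mul_le_mul_right
                rw [hSxc]
                exact min_le_right _ _
      _ = (∑ p ∈ Rl (lam D), cap p.1 p.2) * 2 ^ (lam D) := by rw [Finset.sum_mul]
      _ ≤ _ := Nat.mul_le_mul_right _ hM
  have hQ2c : Q2.card ≤ (S.card + 1) * b := by
    calc Q2.card ≤ (S.biUnion (fun c => Qb c (xw c))).card + (Qb a x₀).card :=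
          Finset.card_union_le _ _
      _ ≤ (∑ c ∈ S, (Qb c (xw c)).card) + b :=
          Nat.add_le_add Finset.card_biUnion_le (hQb1 _ _)
      _ ≤ (∑ c ∈ S, b) + b :=
          Nat.add_le_add_right (Finset.sum_le_sum fun c _ => hQb1 _ _) _
      _ = (S.card + 1) * b := by rw [Finset.sum_const, smul_eq_mul]; ring
  obtain ⟨y₀, hy₀, hy₀Q⟩ : ∃ y₀ ∈ Y, tstr x₀ y₀ ∉ Q1 ∪ Q2 := by
    by_contra hc
    push Not at hc
    have h1 : (Y.image (tstr x₀)).card = Y.card :=
      Finset.card_image_of_injective _ fun y y' h => (tstr_inj h).2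
    have h2 : Y.image (tstr x₀) ⊆ Q1 ∪ Q2 := by
      intro q hq
      obtain ⟨y, hy, rfl⟩ := Finset.mem_image.1 hq
      exact hc y hy
    have h3 := Finset.card_le_card h2
    have h4 := Finset.card_union_le Q1 Q2
    have h5 : lam D = n ^ 2 ^ D := rfl
    rw [h5] at hQ1c
    omega
  have hy1 : ∀ q ∈ Q1, q ≠ tstr x₀ y₀ := by
    rintro q hq rfl
    exact hy₀Q (Finset.mem_union_left _ hq)
  have hy2 : ∀ q ∈ Q2, q ≠ tstr x₀ y₀ := by
    rintro q hq rfl
    exact hy₀Q (Finset.mem_union_right _ hq)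
  set V' : Finset (Str × Str) := insert (x₀, y₀) V with hV'
  have himg : (V'.image Prod.fst) = insert x₀ (V.image Prod.fst) := by
    rw [hV', Finset.image_insert]
  have hV'c : (V'.image Prod.fst).card = (V.image Prod.fst).card + 1 := by
    rw [himg, Finset.card_insert_of_notMem hx₀V]
  have hno : ¬ PS V < PS V' := by
    intro h
    have hmem : V' ∈ F := by
      apply Finset.mem_filter.2
      refine ⟨?_, ?_⟩
      · rw [Finset.mem_powerset]
        intro p hp
        rcases Finset.mem_insert.1 hp with rfl | hp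
        · exact Finset.mem_product.2 ⟨hx₀, hy₀⟩
        · exact hVsub hp
      · rw [hV'c]
        have := hV.2
        omega
    have := hVmax V' hmem
    omega
  have hW : ∀ x y, (x, y) ≠ (x₀, y₀) →
      ((x, y) ∈ W₀ ∪ (V : Set (Str × Str)) ↔ (x, y) ∈ W₀ ∪ (V' : Set (Str × Str))) := by
    intro x y hxy
    simp only [Set.mem_union, Finset.mem_coe, hV', Finset.mem_insert, hxy, false_or]
  have hPsiNo : ∀ l ≤ D, ¬ Psi A cap lam M (Or V) l < Psi A cap lam M (Or V') l := by
    intro l hl h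
    have h1 := Psi_mono (hPhi (Or V)) hl h
    apply hno
    have h2 := hPRlt V hVX
    calc PS V < Psi A cap lam M (Or V) D * S.card + S.card := by
          simp only [hPS]; omega
      _ = (Psi A cap lam M (Or V) D + 1) * S.card := by ring
      _ ≤ Psi A cap lam M (Or V') D * S.card := Nat.mul_le_mul_right _ h1
      _ ≤ _ := Nat.le_add_right _ _
  have hlevel : ∀ l ≤ D, Psi A cap lam M (Or V') l = Psi A cap lam M (Or V) l ∧
      ∀ q : Str, q.length < 2 ^ (lam l) → q ≠ tstr x₀ y₀ → (q ∈ Or V ↔ q ∈ Or V') := by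
    intro l
    induction l with
    | zero =>
      intro _
      refine ⟨rfl, ?_⟩
      intro q hq _
      refine orc_local hA ?_ q hq
      intro x y hxy
      apply hW
      intro h
      rw [Prod.mk.injEq] at h
      rw [tstr_length, h.2, (hYm _).1 hy₀] at hxy
      simp only [hlam, pow_zero, pow_one] at hxy
      omega
    | succ l ih =>
      intro hl
      obtain ⟨ih1, ih2⟩ := ih (by omega)
      have hkeep : ∀ i m, ee i m < lam l → ∀ x ∈ Sx i m, A i x (Or V') := by
        intro i m him x hx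
        have hxm := hSx i m x hx
        obtain ⟨h1, h2⟩ := hQa2 i x hxm.2
        apply h2
        intro q hq
        have hq1 : q ∈ Q1 := by
          rw [hQ1, Finset.mem_biUnion]
          refine ⟨(i, m), mem_Rl.2 (him.trans_le (hlamD l (by omega))), ?_⟩
          rw [Finset.mem_biUnion]
          exact ⟨x, hx, hq⟩
        refine (ih2 q ?_ (hy1 q hq1)).symm
        refine (h1 q hq).trans_le (Nat.pow_le_pow_right (by omega) ?_)
        rw [hxm.1]
        omega
      have hge : ∀ i m, ee i m < lam l →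
          min (cnt A i m (Or V)) (cap i m) ≤ min (cnt A i m (Or V')) (cap i m) := by
        intro i m him
        rw [← hSxc i m]
        apply le_min
        · exact cnt_ge fun x hx => ⟨(hSx i m x hx).1, hkeep i m him x hx⟩
        · rw [hSxc]
          exact min_le_right _ _
      have hPle : Phi A cap (lam l) (Or V) ≤ Phi A cap (lam l) (Or V') :=
        Finset.sum_le_sum fun p hp => hge p.1 p.2 (mem_Rl.1 hp)
      have hPeq : Phi A cap (lam l) (Or V') = Phi A cap (lam l) (Or V) := by
        have h1 := hPsiNo (l + 1) hl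
        simp only [Psi] at h1
        rw [ih1] at h1
        omega
      have hmin : ∀ i m, ee i m < lam l →
          min (cnt A i m (Or V')) (cap i m) = min (cnt A i m (Or V)) (cap i m) := by
        intro i m him
        by_contra hne
        have hlt : min (cnt A i m (Or V)) (cap i m) < min (cnt A i m (Or V')) (cap i m) :=
          lt_of_le_of_ne (hge i m him) (fun h => hne h.symm)
        have : Phi A cap (lam l) (Or V) < Phi A cap (lam l) (Or V') :=
          Finset.sum_lt_sum (fun p hp => hge p.1 p.2 (mem_Rl.1 hp))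
            ⟨(i, m), mem_Rl.2 him, hlt⟩
        omega
      refine ⟨?_, ?_⟩
      · simp only [Psi]
        rw [ih1, hPeq]
      · intro q hq hq0
        have hll : lam (l + 1) = lam l ^ 2 := by
          simp only [hlam]
          rw [← pow_mul, pow_succ]
        rw [hll] at hq
        exact level_step hA hW Sx hSx hSxc hkeep hmin q hq hq0
  obtain ⟨hD1, hD2⟩ := hlevel D le_rfl
  apply hno
  have hPRsub : insert a (PR V) ⊆ PR V' := by
    intro c hc
    rcases Finset.mem_insert.1 hc with rfl | hc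
    · apply Finset.mem_filter.2
      refine ⟨ha, x₀, hx₀, ?_, ?_⟩
      · rw [himg]
        exact Finset.mem_insert_self _ _
      · obtain ⟨h1, h2⟩ := hQb2 c x₀ ha hx₀ hax₀
        apply h2
        intro q hq
        exact (hD2 q (h1 q hq) (hy2 q (Finset.mem_union_right _ hq))).symm
    · have hcS := (Finset.mem_filter.1 hc).1
      obtain ⟨h3, h4, h5⟩ := hxw c hc
      apply Finset.mem_filter.2
      refine ⟨hcS, xw c, h3, ?_, ?_⟩
      · rw [himg]
        exact Finset.mem_insert_of_mem h4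
      · obtain ⟨h1, h2⟩ := hQb2 c (xw c) hcS h3 h5
        apply h2
        intro q hq
        refine (hD2 q (h1 q hq) (hy2 q (Finset.mem_union_left _ ?_))).symm
        exact Finset.mem_biUnion.2 ⟨c, hcS, hq⟩
  have hc1 := Finset.card_le_card hPRsub
  rw [Finset.card_insert_of_notMem ha0] at hc1
  simp only [hPS]
  rw [hD1]
  omega

end

end Pool.Agent.Helper5.SX
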